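import Pool.Agent.H2.ST.Basic

/-!
Symplectic torus actions on affine space (MP_51eb24_ag): basic facts on gradings.
-/

set_option autoImplicit false

namespace Pool.Agent.H2.ST

open MvPolynomial

section grading

variable {k A Γ : Type} [Field k] [CommRing A] [Algebra k A] [AddCommGroup Γ]
  {W : Γ → Submodule k A}

theorem dec_uniq (h : Gr W) (c c' : Γ →₀ A) (hc : ∀ a, c a ∈ W a) (hc' : ∀ a, c' a ∈ W a)
    (he : (c.sum fun _ x => x) = (c'.sum fun _ x => x)) : c = c' := by
  have h1 := h.ind (c - c') (fun a => by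
    rw [Finsupp.sub_apply]; exact (W a).sub_mem (hc a) (hc' a)) (by
    rw [Finsupp.sum_sub_index (fun _ _ _ => rfl), he, sub_self])
  exact sub_eq_zero.1 h1

/-- the homogeneous components -/
noncomputable def cmp (h : Gr W) : A →ₗ[k] (Γ →₀ A) where
  toFun f := (h.dec f).choose
  map_add' := by
    intro f g
    refine dec_uniq h _ _ (h.dec (f + g)).choose_spec.1 (fun a => ?_) ?_
    · rw [Finsupp.add_apply]
      exact (W a).add_mem ((h.dec f).choose_spec.1 a) ((h.dec g).choose_spec.1 a)
    · rw [(h.dec (f + g)).choose_spec.2, Finsupp.sum_add_index' (fun _ => rfl) (fun _ _ _ => rfl),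
        (h.dec f).choose_spec.2, (h.dec g).choose_spec.2]
  map_smul' := by
    intro r f
    refine dec_uniq h _ _ (h.dec (r • f)).choose_spec.1 (fun a => ?_) ?_
    · rw [Finsupp.smul_apply]
      exact (W a).smul_mem _ ((h.dec f).choose_spec.1 a)
    · rw [(h.dec (r • f)).choose_spec.2, Finsupp.sum_smul_index' (fun _ => rfl)]
      rw [RingHom.id_apply]
      unfold Finsupp.sum
      rw [← Finset.smul_sum]
      have := (h.dec f).choose_spec.2
      unfold Finsupp.sum at this
      rw [this]

theorem cmp_mem (h : Gr W) (f : A) (a : Γ) : cmp h f a ∈ W a := (h.dec f).choose_spec.1 a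

theorem cmp_sum (h : Gr W) (f : A) : ((cmp h f).sum fun _ x => x) = f := (h.dec f).choose_spec.2

theorem cmp_uniq (h : Gr W) (f : A) (c : Γ →₀ A) (hc : ∀ a, c a ∈ W a)
    (he : (c.sum fun _ x => x) = f) : cmp h f = c :=
  dec_uniq h _ _ (cmp_mem h f) hc (by rw [cmp_sum, he])

theorem cmp_of_mem (h : Gr W) {a : Γ} {f : A} (hf : f ∈ W a) :
    cmp h f = Finsupp.single a f := by
  classical
  refine cmp_uniq h f _ (fun b => ?_) (by rw [Finsupp.sum_single_index rfl])
  rw [Finsupp.single_apply]
  split_ifs with hab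
  · rw [← hab]; exact hf
  · exact (W b).zero_mem

theorem mem_of_cmp (h : Gr W) {a : Γ} {f : A} (hf : ∀ b, b ≠ a → cmp h f b = 0) : f ∈ W a := by
  classical
  have h1 : f = cmp h f a := by
    conv_lhs => rw [← cmp_sum h f]
    unfold Finsupp.sum
    rw [Finset.sum_eq_single a]
    · intro b _ hb; exact hf b hb
    · intro ha; simpa using ha
  rw [h1]; exact cmp_mem h f a

theorem wt_uniq (h : Gr W) {a b : Γ} {f : A} (hf : f ∈ W a) (hg : f ∈ W b) (hne : f ≠ 0) :
    a = b := by
  classical
  have h1 := cmp_of_mem h hf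
  rw [cmp_of_mem h hg] at h1
  have h2 := congrArg (fun c : Γ →₀ A => c a) h1
  simp only [Finsupp.single_apply] at h2
  by_contra hab
  rw [if_neg (fun h => hab h.symm), if_pos trivial] at h2
  exact hne h2.symm

theorem pow_mem_gr (h : Gr W) {a : Γ} {f : A} (hf : f ∈ W a) (n : ℕ) : f ^ n ∈ W (n • a) := by
  induction n with
  | zero => rw [pow_zero, zero_smul]; exact h.one
  | succ n ih => rw [pow_succ, succ_nsmul]; exact h.mul _ _ _ _ ih hf

theorem prod_mem_gr (h : Gr W) {ι : Type} (s : Finset ι) (a : ι → Γ) (f : ι → A)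
    (hf : ∀ i ∈ s, f i ∈ W (a i)) : ∏ i ∈ s, f i ∈ W (∑ i ∈ s, a i) := by
  classical
  induction s using Finset.induction_on with
  | empty => rw [Finset.prod_empty, Finset.sum_empty]; exact h.one
  | insert i s hi ih =>
    rw [Finset.prod_insert hi, Finset.sum_insert hi]
    exact h.mul _ _ _ _ (hf i (Finset.mem_insert_self _ _))
      (ih fun j hj => hf j (Finset.mem_insert_of_mem hj))

theorem mul_mem_gr (h : Gr W) {a b : Γ} {f g : A} (hf : f ∈ W a) (hg : g ∈ W b) :
    f * g ∈ W (a + b) := h.mul a b f g hf hg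

theorem algebraMap_mem_gr (h : Gr W) (c : k) : algebraMap k A c ∈ W 0 := by
  rw [Algebra.algebraMap_eq_smul_one]
  exact (W 0).smul_mem c h.one

/-- components of a product with a homogeneous element -/
theorem cmp_mul_of_mem (h : Gr W) {b : Γ} {g : A} (hg : g ∈ W b) (f : A) (a : Γ) :
    cmp h (f * g) (a + b) = cmp h f a * g := by
  classical
  let c : Γ →₀ A := (cmp h f).sum fun a x => Finsupp.single (a + b) (x * g)
  have hc : ∀ a, c (a + b) = cmp h f a * g := by
    intro a
    simp only [c]
    rw [Finsupp.sum, Finsupp.finsetSum_apply]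
    simp only [Finsupp.single_apply]
    rw [Finset.sum_eq_single a]
    · rw [if_pos rfl]
    · intro a' _ ha'
      rw [if_neg (fun h => ha' (add_right_cancel h))]
    · intro ha
      rw [if_pos rfl, Finsupp.notMem_support_iff.1 ha, zero_mul]
  have h1 : cmp h (f * g) = c := by
    refine cmp_uniq h _ c (fun a' => ?_) ?_
    · have := hc (a' - b)
      rw [sub_add_cancel] at this
      rw [this]
      have h2 := h.mul _ _ _ _ (cmp_mem h f (a' - b)) hg
      rwa [sub_add_cancel] at h2
    · simp only [c]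
      rw [Finsupp.sum_sum_index (fun _ => rfl) (fun _ _ _ => rfl)]
      have h3 : ((cmp h f).sum fun a x => (Finsupp.single (a + b) (x * g)).sum fun _ y => y) =
          (cmp h f).sum fun _ x => x * g := by
        refine Finsupp.sum_congr fun a _ => ?_
        rw [Finsupp.sum_single_index rfl]
      rw [h3]
      conv_rhs => rw [← cmp_sum h f]
      unfold Finsupp.sum
      rw [Finset.sum_mul]
  rw [h1, hc]

end grading

/-- coarsening of a grading along a homomorphism -/
def co {k A Γ Γ' : Type} [Field k] [CommRing A] [Algebra k A] [AddCommGroup Γ] [AddCommGroup Γ']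
    (W : Γ → Submodule k A) (π : Γ →+ Γ') (b : Γ') : Submodule k A :=
  ⨆ (a : Γ) (_ : π a = b), W a

theorem le_co {k A Γ Γ' : Type} [Field k] [CommRing A] [Algebra k A] [AddCommGroup Γ]
    [AddCommGroup Γ'] (W : Γ → Submodule k A) (π : Γ →+ Γ') (a : Γ) : W a ≤ co W π (π a) :=
  le_iSup₂_of_le a rfl le_rfl

end Pool.Agent.H2.ST
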