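import Pool.Agent.H2.ST.Defs

/-!
Symplectic torus actions on affine space (MP_51eb24_ag): basic facts on the Poisson bracket.
-/

set_option autoImplicit false

namespace Pool.Agent.H2.ST

open MvPolynomial

variable {k : Type} [Field k] {m : ℕ}

/-- the Hamiltonian derivation `{f, ·}` -/
noncomputable def ad (f : Pol k m) : Derivation k (Pol k m) (Pol k m) :=
  ∑ i : Fin m, (pderiv (Sum.inl i) f • pderiv (Sum.inr i) - pderiv (Sum.inr i) f • pderiv (Sum.inl i))

theorem ad_apply (f g : Pol k m) : ad f g = br f g := by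
  unfold ad br
  have h : ∀ (s : Finset (Fin m)) (F : Fin m → Derivation k (Pol k m) (Pol k m)),
      (∑ i ∈ s, F i) g = ∑ i ∈ s, F i g := by
    classical
    intro s F
    induction s using Finset.induction_on with
    | empty => simp
    | insert a s ha ih => rw [Finset.sum_insert ha, Finset.sum_insert ha, Derivation.add_apply, ih]
  rw [h]
  rfl

theorem br_anti (f g : Pol k m) : br f g = - br g f := by
  unfold br
  rw [← Finset.sum_neg_distrib]
  exact Finset.sum_congr rfl fun i _ => by ring

theorem br_add (f g h : Pol k m) : br f (g + h) = br f g + br f h := by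
  rw [← ad_apply, map_add, ad_apply, ad_apply]

theorem br_sub (f g h : Pol k m) : br f (g - h) = br f g - br f h := by
  rw [← ad_apply, map_sub, ad_apply, ad_apply]

theorem br_neg (f g : Pol k m) : br f (-g) = - br f g := by
  rw [← ad_apply, map_neg, ad_apply]

theorem br_zero (f : Pol k m) : br f 0 = 0 := by
  rw [← ad_apply, map_zero]

theorem br_smul (c : k) (f g : Pol k m) : br f (c • g) = c • br f g := by
  rw [← ad_apply, Derivation.map_smul, ad_apply]

theorem br_mul (f g h : Pol k m) : br f (g * h) = g * br f h + h * br f g := by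
  rw [← ad_apply, Derivation.leibniz, ad_apply, ad_apply]
  rfl

theorem br_pow (f g : Pol k m) (n : ℕ) : br f (g ^ n) = n * g ^ (n - 1) * br f g := by
  rw [← ad_apply, Derivation.leibniz_pow, ad_apply, smul_eq_mul, nsmul_eq_mul, mul_assoc]

theorem br_C (f : Pol k m) (c : k) : br f (C c) = 0 := by
  rw [← ad_apply]
  exact Derivation.map_algebraMap _ _

theorem br_one (f : Pol k m) : br f 1 = 0 := by
  rw [← C_1]; exact br_C f 1

theorem br_sum {ι : Type} (s : Finset ι) (f : Pol k m) (g : ι → Pol k m) :
    br f (∑ i ∈ s, g i) = ∑ i ∈ s, br f (g i) := by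
  rw [← ad_apply, map_sum]
  exact Finset.sum_congr rfl fun i _ => ad_apply _ _

theorem add_br (f g h : Pol k m) : br (f + g) h = br f h + br g h := by
  rw [br_anti, br_add, neg_add, ← br_anti, ← br_anti]

theorem sub_br (f g h : Pol k m) : br (f - g) h = br f h - br g h := by
  rw [br_anti, br_sub, br_anti h f, br_anti h g]; ring

theorem neg_br (f g : Pol k m) : br (-f) g = - br f g := by
  rw [br_anti, br_neg, ← br_anti]

theorem zero_br (f : Pol k m) : br 0 f = 0 := by
  rw [br_anti, br_zero, neg_zero]

theorem smul_br (c : k) (f g : Pol k m) : br (c • f) g = c • br f g := by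
  rw [br_anti, br_smul, br_anti g f, smul_neg, neg_neg]

theorem mul_br (f g h : Pol k m) : br (f * g) h = f * br g h + g * br f h := by
  rw [br_anti, br_mul, br_anti h f, br_anti h g]; ring

theorem C_br (f : Pol k m) (c : k) : br (C c) f = 0 := by
  rw [br_anti, br_C, neg_zero]

theorem sum_br {ι : Type} (s : Finset ι) (f : Pol k m) (g : ι → Pol k m) :
    br (∑ i ∈ s, g i) f = ∑ i ∈ s, br (g i) f := by
  rw [br_anti, br_sum, ← Finset.sum_neg_distrib]
  exact Finset.sum_congr rfl fun i _ => (br_anti _ _).symm

theorem br_self (f : Pol k m) : br f f = 0 := by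
  unfold br
  exact Finset.sum_eq_zero fun i _ => by ring

theorem br_inl (f : Pol k m) (j : Fin m) : br f (X (Sum.inl j)) = - pderiv (Sum.inr j) f := by
  classical
  unfold br
  rw [Finset.sum_eq_single j]
  · rw [pderiv_X_self, pderiv_X_of_ne (by simp)]; ring
  · intro b _ hb
    rw [pderiv_X_of_ne (by simp), pderiv_X_of_ne (by simpa using Ne.symm hb)]; ring
  · intro h; exact absurd (Finset.mem_univ _) h

theorem br_inr (f : Pol k m) (j : Fin m) : br f (X (Sum.inr j)) = pderiv (Sum.inl j) f := by
  classical
  unfold br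
  rw [Finset.sum_eq_single j]
  · rw [pderiv_X_self, pderiv_X_of_ne (by simp)]; ring
  · intro b _ hb
    rw [pderiv_X_of_ne (by simpa using Ne.symm hb), pderiv_X_of_ne (by simp)]; ring
  · intro h; exact absurd (Finset.mem_univ _) h

theorem pd_comm (s t : Fin m ⊕ Fin m) (f : Pol k m) :
    pderiv s (pderiv t f) = pderiv t (pderiv s f) := by
  classical
  by_cases hst : s = t
  · rw [hst]
  have h : ⁅(pderiv s : Derivation k (Pol k m) (Pol k m)),
      (pderiv t : Derivation k (Pol k m) (Pol k m))⁆ = 0 := by
    apply MvPolynomial.derivation_ext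
    intro i
    rw [Derivation.commutator_apply, pderiv_X, pderiv_X]
    simp only [Pi.single_apply]
    split_ifs <;> simp
  have h2 := congrArg (fun D : Derivation k (Pol k m) (Pol k m) => D f) h
  simp only [Derivation.commutator_apply] at h2
  exact sub_eq_zero.1 h2

theorem pd_br (s : Fin m ⊕ Fin m) (f g : Pol k m) :
    pderiv s (br f g) = br (pderiv s f) g + br f (pderiv s g) := by
  unfold br
  rw [map_sum, ← Finset.sum_add_distrib]
  refine Finset.sum_congr rfl fun i _ => ?_
  rw [map_sub, Derivation.leibniz, Derivation.leibniz, pd_comm (Sum.inl i) s f,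
    pd_comm (Sum.inr i) s f, pd_comm (Sum.inl i) s g, pd_comm (Sum.inr i) s g]
  simp only [smul_eq_mul]
  ring

/-- Jacobi identity -/
theorem jac (f g h : Pol k m) : br f (br g h) = br (br f g) h + br g (br f h) := by
  have key : (⁅ad f, ad g⁆ : Derivation k (Pol k m) (Pol k m)) = ad (br f g) := by
    apply MvPolynomial.derivation_ext
    intro i
    rw [Derivation.commutator_apply, ad_apply, ad_apply, ad_apply, ad_apply, ad_apply]
    rcases i with j | j
    · rw [br_inl, br_inl, br_inl, br_neg, br_neg, pd_br, br_anti (pderiv (Sum.inr j) f) g]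
      ring
    · rw [br_inr, br_inr, br_inr, pd_br, br_anti (pderiv (Sum.inl j) f) g]
      ring
  have h2 := congrArg (fun D : Derivation k (Pol k m) (Pol k m) => D h) key
  simp only [Derivation.commutator_apply, ad_apply] at h2
  rw [← h2]; ring

/-- the bracket lowers the degree by two -/
theorem deg_br (f g : Pol k m) (h : br f g ≠ 0) :
    (br f g).totalDegree + 2 ≤ f.totalDegree + g.totalDegree := by
  have hd : ∀ (s : Fin m ⊕ Fin m) (p : Pol k m), pderiv s p ≠ 0 →
      (pderiv s p).totalDegree + 1 ≤ p.totalDegree := by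
    intro s p hp
    have h1 : 1 ≤ p.totalDegree := by
      by_contra h0
      have h2 : p.totalDegree = 0 := by omega
      rw [totalDegree_eq_zero_iff_eq_C] at h2
      rw [h2, pderiv_C] at hp
      exact hp rfl
    suffices h3 : (pderiv s p).totalDegree ≤ p.totalDegree - 1 by omega
    rw [totalDegree]
    refine Finset.sup_le fun n hn => ?_
    rw [mem_support_iff, coeff_pderiv] at hn
    have h4 : coeff (n + Finsupp.single s 1) p ≠ 0 := fun h5 => hn (by rw [h5]; simp)
    have h6 := le_totalDegree (mem_support_iff.2 h4)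
    rw [Finsupp.sum_add_index' (fun _ => rfl) (fun _ _ _ => rfl), Finsupp.sum_single_index rfl] at h6
    omega
  have hm : ∀ (s t : Fin m ⊕ Fin m), pderiv s f * pderiv t g ≠ 0 →
      (pderiv s f * pderiv t g).totalDegree ≤ f.totalDegree + g.totalDegree - 2 ∧
      2 ≤ f.totalDegree + g.totalDegree := by
    intro s t hst
    have h1 := hd s f (left_ne_zero_of_mul hst)
    have h2 := hd t g (right_ne_zero_of_mul hst)
    have h3 := totalDegree_mul (pderiv s f) (pderiv t g)
    omega
  have h2 : 2 ≤ f.totalDegree + g.totalDegree := by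
    by_contra hlt
    apply h
    unfold br
    refine Finset.sum_eq_zero fun i _ => ?_
    have a1 : pderiv (Sum.inl i) f * pderiv (Sum.inr i) g = 0 := by
      by_contra hne; exact hlt (hm _ _ hne).2
    have a2 : pderiv (Sum.inr i) f * pderiv (Sum.inl i) g = 0 := by
      by_contra hne; exact hlt (hm _ _ hne).2
    rw [a1, a2, sub_zero]
  suffices h3 : (br f g).totalDegree ≤ f.totalDegree + g.totalDegree - 2 by omega
  unfold br
  refine totalDegree_finsetSum_le fun i _ => ?_
  refine le_trans (totalDegree_sub _ _) (max_le ?_ ?_)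
  · by_cases h0 : pderiv (Sum.inl i) f * pderiv (Sum.inr i) g = 0
    · rw [h0, totalDegree_zero]; omega
    · exact (hm _ _ h0).1
  · by_cases h0 : pderiv (Sum.inr i) f * pderiv (Sum.inl i) g = 0
    · rw [h0, totalDegree_zero]; omega
    · exact (hm _ _ h0).1

/-- an element with zero partial derivatives is a constant (characteristic 0) -/
theorem const_of_br [CharZero k] (f : Pol k m) (h : ∀ s, br f (X s) = 0) :
    ∃ c : k, f = C c := by
  refine ⟨constantCoeff f, ?_⟩
  have hp : ∀ s, pderiv s f = 0 := by
    intro s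
    rcases s with j | j
    · rw [← br_inr]; exact h _
    · have := h (Sum.inl j)
      rw [br_inl] at this
      exact neg_eq_zero.1 this
  ext n
  rw [coeff_C]
  by_cases hn : (0 : (Fin m ⊕ Fin m) →₀ ℕ) = n
  · rw [if_pos hn, ← hn]; rfl
  · rw [if_neg hn]
    obtain ⟨s, hs⟩ : ∃ s, n s ≠ 0 := by
      by_contra hcon
      push Not at hcon
      exact hn (Finsupp.ext fun s => (hcon s).symm)
    have h1 := congrArg (coeff (n - Finsupp.single s 1)) (hp s)
    rw [coeff_pderiv, coeff_zero] at h1
    have h2 : n - Finsupp.single s 1 + Finsupp.single s 1 = n := by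
      apply tsub_add_cancel_of_le
      rw [Finsupp.single_le_iff]
      omega
    rw [h2] at h1
    rcases mul_eq_zero.1 h1 with h3 | h3
    · exact h3
    · exfalso
      have : (((((n - Finsupp.single s 1 : (Fin m ⊕ Fin m) →₀ ℕ) s) + 1 : ℕ)) : k) = 0 := by
        push_cast; exact h3
      exact absurd (Nat.cast_eq_zero.1 this) (by omega)

/-- if `p` divides all brackets with the coordinates then it is a constant -/
theorem const_of_dvd [CharZero k] (p : Pol k m) (h : ∀ s, p ∣ br p (X s)) : ∃ c : k, p = C c := by
  apply const_of_br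
  intro s
  by_contra hne
  obtain ⟨q, hq⟩ := h s
  have h1 := deg_br p (X s) hne
  rw [totalDegree_X] at h1
  have hp : p ≠ 0 := by
    intro h0; rw [h0, zero_br] at hne; exact hne rfl
  have hq0 : q ≠ 0 := by
    intro h0; rw [h0, mul_zero] at hq; exact hne hq
  rw [hq, totalDegree_mul_of_isDomain hp hq0] at h1
  omega

/-- the degree trick: `u v ∣ {u, v}` forces `{u, v} = 0` -/
theorem br_eq_zero_of_dvd (u v : Pol k m) (h : u * v ∣ br u v) : br u v = 0 := by
  by_contra hne
  obtain ⟨q, hq⟩ := h
  have h1 := deg_br u v hne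
  have hu : u ≠ 0 := by
    intro h0; rw [h0, zero_br] at hne; exact hne rfl
  have hv : v ≠ 0 := by
    intro h0; rw [h0, br_zero] at hne; exact hne rfl
  have hq0 : q ≠ 0 := by
    intro h0; rw [h0, mul_zero] at hq; exact hne hq
  rw [hq, totalDegree_mul_of_isDomain (mul_ne_zero hu hv) hq0,
    totalDegree_mul_of_isDomain hu hv] at h1
  omega

/-- the centralizer of a set -/
noncomputable def Cen (S : Set (Pol k m)) : Subalgebra k (Pol k m) where
  carrier := {f | ∀ g ∈ S, br f g = 0}
  mul_mem' := by
    intro a b ha hb g hg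
    rw [mul_br, ha g hg, hb g hg, mul_zero, mul_zero, add_zero]
  add_mem' := by
    intro a b ha hb g hg
    rw [add_br, ha g hg, hb g hg, add_zero]
  algebraMap_mem' := by
    intro r g _
    exact C_br g r

theorem mem_Cen {S : Set (Pol k m)} {f : Pol k m} : f ∈ Cen S ↔ ∀ g ∈ S, br f g = 0 := Iff.rfl

/-- the centralizer is closed under the bracket -/
theorem Cen_br {S : Set (Pol k m)} {f g : Pol k m} (hf : f ∈ Cen S) (hg : g ∈ Cen S) :
    br f g ∈ Cen S := by
  intro h hh
  have h1 := jac f g h
  rw [hf h hh, hg h hh, br_zero, br_zero, add_zero] at h1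
  exact h1.symm

end Pool.Agent.H2.ST
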