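import Pool.Agent.H2.ST.Asm

/-!
Symplectic torus actions on affine space (MP_51eb24_ag): splitting off the moving part when the
fixed locus has the largest possible dimension.
-/

set_option autoImplicit false

namespace Pool.Agent.H2.ST

open MvPolynomial

set_option linter.unusedSectionVars false

section dim

variable {k : Type} [Field k] {m : ℕ} {Γ : Type} [AddCommGroup Γ]

/-- the first order bracket in terms of gradients -/
theorem cc_br (f g : Pol k m) : constantCoeff (br f g) =
    ∑ i : Fin m, (constantCoeff (pderiv (Sum.inl i) f) * constantCoeff (pderiv (Sum.inr i) g) -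
      constantCoeff (pderiv (Sum.inr i) f) * constantCoeff (pderiv (Sum.inl i) g)) := by
  unfold br
  rw [map_sum]
  exact Finset.sum_congr rfl fun i _ => by rw [map_sub, map_mul, map_mul]

/-- the pairing of a vector with the coordinates `y` -/
noncomputable def pair (y : Fin m ⊕ Fin m → Pol k m) :
    (Fin m ⊕ Fin m → k) →ₗ[k] (Fin m ⊕ Fin m → k) where
  toFun g := fun t => ∑ i : Fin m, (g (Sum.inl i) * constantCoeff (pderiv (Sum.inr i) (y t)) -
      g (Sum.inr i) * constantCoeff (pderiv (Sum.inl i) (y t)))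
  map_add' := by
    intro a b
    funext t
    rw [Pi.add_apply, ← Finset.sum_add_distrib]
    exact Finset.sum_congr rfl fun i _ => by rw [Pi.add_apply, Pi.add_apply]; ring
  map_smul' := by
    intro r a
    funext t
    rw [RingHom.id_apply, Pi.smul_apply, smul_eq_mul, Finset.mul_sum]
    exact Finset.sum_congr rfl fun i _ => by
      rw [Pi.smul_apply, Pi.smul_apply, smul_eq_mul, smul_eq_mul]; ring

theorem pair_grad (y : Fin m ⊕ Fin m → Pol k m) (f : Pol k m) (t : Fin m ⊕ Fin m) :
    pair y (fun s => constantCoeff (pderiv s f)) t = constantCoeff (br f (y t)) := by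
  rw [cc_br]; rfl

/-- the pairing is surjective, hence injective -/
theorem pair_inj {W : Γ → Submodule k (Pol k m)} {y : Fin m ⊕ Fin m → Pol k m} {w : Fin m → Γ}
    (h : Ada W y w) : Function.Injective (pair y) := by
  classical
  rw [LinearMap.injective_iff_surjective, ← LinearMap.range_eq_top, eq_top_iff]
  intro x _
  have hb : ∀ t : Fin m ⊕ Fin m, (Pi.single t (1 : k) : Fin m ⊕ Fin m → k) ∈
      LinearMap.range (pair y) := by
    intro t
    rcases t with i | i
    · refine ⟨fun s => constantCoeff (pderiv s (- y (Sum.inr i))), ?_⟩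
      funext t
      rw [pair_grad, neg_br, br_anti, neg_neg]
      rcases t with j | j
      · rw [h.lr]
        by_cases hij : j = i
        · subst hij; rw [if_pos rfl, Pi.single_eq_same]
        · rw [if_neg hij, Pi.single_eq_of_ne]
          intro hc; exact hij (Sum.inl_injective hc)
      · rw [h.rr, Pi.single_eq_of_ne (by simp)]
    · refine ⟨fun s => constantCoeff (pderiv s (y (Sum.inl i))), ?_⟩
      funext t
      rw [pair_grad]
      rcases t with j | j
      · rw [h.ll, Pi.single_eq_of_ne (by simp)]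
      · rw [h.lr]
        by_cases hij : i = j
        · subst hij; rw [if_pos rfl, Pi.single_eq_same]
        · rw [if_neg hij, Pi.single_eq_of_ne]
          intro hc; exact hij (Sum.inr_injective hc).symm
  have h1 : x = ∑ t, x t • (Pi.single t (1 : k) : Fin m ⊕ Fin m → k) := by
    funext s
    rw [Finset.sum_apply, Finset.sum_eq_single s]
    · rw [Pi.smul_apply, Pi.single_eq_same, smul_eq_mul, mul_one]
    · intro b _ hb
      rw [Pi.smul_apply, Pi.single_eq_of_ne (Ne.symm hb), smul_zero]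
    · intro h; exact absurd (Finset.mem_univ _) h
  rw [h1]
  exact Submodule.sum_mem _ fun t _ => Submodule.smul_mem _ _ (hb t)

/-- the differentials of the invariants at the origin -/
theorem grad_dim {W : Γ → Submodule k (Pol k m)} (hW : PGr W) {y : Fin m ⊕ Fin m → Pol k m}
    {w : Fin m → Γ} (h : Ada W y w) (S : Submodule k (Fin m ⊕ Fin m → k))
    (hS : ∀ g ∈ S, ∃ f ∈ W 0, g = fun s => constantCoeff (pderiv s f)) :
    Module.finrank k S ≤ 2 * Nat.card {i // w i = 0} := by
  classical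
  -- the pairing restricted to `S` lands in the coordinates of weight zero
  let Z : Type := {i // w i = 0} ⊕ {i // w i = 0}
  let q : S →ₗ[k] (Z → k) :=
    { toFun := fun g z => pair y g.1 (Sum.map Subtype.val Subtype.val z)
      map_add' := fun a b => by
        funext z
        change pair y (a.1 + b.1) _ = _
        rw [map_add]; rfl
      map_smul' := fun r a => by
        funext z
        change pair y (r • a.1) _ = _
        rw [map_smul]; rfl }
  have hq : Function.Injective q := by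
    rw [injective_iff_map_eq_zero]
    intro g hg
    apply Subtype.ext
    apply pair_inj h
    change pair y g.1 = pair y 0
    rw [map_zero]
    obtain ⟨f, hf, hgf⟩ := hS g.1 g.2
    funext t
    by_cases ht : (Sum.elim w w t) = 0
    · rcases t with i | i
      · exact congrFun hg (Sum.inl ⟨i, ht⟩)
      · exact congrFun hg (Sum.inr ⟨i, ht⟩)
    · rw [hgf, pair_grad]
      rcases t with i | i
      · exact hW.van _ (by rw [zero_add]; exact ht) _ (hW.pbr _ _ _ _ hf (h.hl i))
      · refine hW.van _ ?_ _ (hW.pbr _ _ _ _ hf (h.hr i))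
        rw [zero_add]; exact neg_ne_zero.2 ht
  have h1 := LinearMap.finrank_le_finrank_of_injective hq
  rw [Module.finrank_fintype_fun_eq_card] at h1
  have h2 : Fintype.card Z = 2 * Nat.card {i // w i = 0} := by
    rw [Nat.card_eq_fintype_card, two_mul]
    exact Fintype.card_sum
  omega

end dim

/-- the splitting statement at a fixed point `p` -/
def SplitAt {k : Type} [Field k] {m d : ℕ}
    (ρ : (Fin d → kˣ) →* (Pol k m ≃ₐ[k] Pol k m)) : Prop :=
  ∃ (u v : Fin d → Pol k m) (w : Fin d → Fin d → ℤ),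
    (∀ (t : Fin d → kˣ) (i : Fin d), ρ t (u i) = C ((chr (w i) t : kˣ) : k) * u i ∧
      ρ t (v i) = C (((chr (w i) t)⁻¹ : kˣ) : k) * v i) ∧
    (∀ i j, br (u i) (v j) = if i = j then 1 else 0) ∧
    (∀ i j, br (u i) (u j) = 0) ∧ (∀ i j, br (v i) (v j) = 0) ∧
    (∀ f : Pol k m, (∀ i, br f (u i) = 0 ∧ br f (v i) = 0) → ∀ t, ρ t f = f) ∧
    ∀ f : Pol k m, f ∈ Algebra.adjoin k
      ({g | ∀ i, br g (u i) = 0 ∧ br g (v i) = 0} ∪ (Set.range u ∪ Set.range v))

section split

variable {k : Type} [Field k] [IsAlgClosed k] [CharZero k] {m d : ℕ}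

theorem chr_neg (χ : Fin d → ℤ) (t : Fin d → kˣ) : chr (-χ) t = (chr χ t)⁻¹ := by
  unfold chr
  rw [← Finset.prod_inv_distrib]
  exact Finset.prod_congr rfl fun i _ => by rw [Pi.neg_apply, zpow_neg]

/-- splitting data give the splitting statement -/
theorem split_of_spl (hNPS : T_NPS) (hSPG : T_SPG) (hKFC : T_KFC)
    (ρ : (Fin d → kˣ) →* (Pol k m ≃ₐ[k] Pol k m)) {w : Fin m → Fin d → ℤ}
    {π : Fin m → (Fin d → ℤ) →+ ℤ} {u v : Fin m → Pol k m} {c : Fin m → k}
    (h : Spl (Wt ρ) w π u v c) (hc : Nat.card {i // w i ≠ 0} = d) : SplitAt ρ := by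
  classical
  have e : Fin d ≃ {i // w i ≠ 0} := by
    refine (Fintype.equivFinOfCardEq ?_).symm
    rw [← Nat.card_eq_fintype_card]; exact hc
  let U : Fin d → Pol k m := fun i => u (e i).1
  let V : Fin d → Pol k m := fun i => (-(c (e i).1)⁻¹) • v (e i).1
  have hN := hNPS k m _ (Wt ρ) w π u v c h
  have hK : ∀ f : Pol k m, (∀ i, br f (U i) = 0 ∧ br f (V i) = 0) ↔ f ∈ Cen (act w u v) := by
    intro f
    constructor
    · rintro hf g ⟨i, hi, hg⟩
      obtain ⟨j, hj⟩ := e.surjective ⟨i, hi⟩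
      have h1 := hf j
      simp only [U, V, hj] at h1
      rcases hg with rfl | rfl
      · exact h1.1
      · have h2 := h1.2
        rw [br_smul] at h2
        rcases smul_eq_zero.1 h2 with h3 | h3
        · exfalso
          exact (h.par i hi).hc (by simpa using h3)
        · exact h3
    · intro hf i
      refine ⟨hf _ ⟨(e i).1, (e i).2, Or.inl rfl⟩, ?_⟩
      simp only [V]
      rw [br_smul, hf _ ⟨(e i).1, (e i).2, Or.inr rfl⟩, smul_zero]
  refine ⟨U, V, fun i => w (e i).1, ?_, ?_, ?_, ?_, ?_, ?_⟩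
  · intro t i
    have h1 := (h.par (e i).1 (e i).2).hu t
    have h2 := (h.par (e i).1 (e i).2).hv t
    refine ⟨?_, ?_⟩
    · simp only [U]
      rw [h1, smul_eq_C_mul]
    · simp only [V]
      rw [map_smul, h2, chr_neg, smul_comm, smul_eq_C_mul (a := ((chr (w (e i).1) t)⁻¹ : kˣ).val)]
  · intro i j
    simp only [U, V]
    rw [br_smul]
    by_cases hij : i = j
    · subst hij
      rw [if_pos rfl, br_anti, (h.par (e i).1 (e i).2).vu, smul_neg, neg_smul, neg_neg,
        smul_eq_C_mul, ← C_mul, inv_mul_cancel₀ (h.par (e i).1 (e i).2).hc, C_1]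
    · rw [if_neg hij, h.uv _ _ (e i).2 (e j).2, smul_zero]
      intro hc'
      exact hij (e.injective (Subtype.ext hc'))
  · intro i j
    exact h.uu _ _ (e i).2 (e j).2
  · intro i j
    simp only [V]
    rw [br_smul, smul_br, h.vv _ _ (e i).2 (e j).2, smul_zero, smul_zero]
  · intro f hf t
    have h1 := (hKFC k m _ (Wt ρ) w π u v c h hN).2 f ((hK f).1 hf) t
    rw [h1, chr_zero, Units.val_one, one_smul]
  · intro f
    have h1 := (hSPG k m _ (Wt ρ) w π u v c h hN).1 f
    refine Algebra.adjoin_le ?_ h1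
    rintro g (hg | ⟨i, hi, hg⟩)
    · exact Algebra.subset_adjoin (Or.inl ((hK g).2 hg))
    · obtain ⟨j, hj⟩ := e.surjective ⟨i, hi⟩
      rcases hg with rfl | rfl
      · refine Algebra.subset_adjoin (Or.inr (Or.inl ⟨j, ?_⟩))
        simp only [U, hj]
      · have h2 : v i = (-(c i)) • V j := by
          simp only [V, hj]
          rw [smul_smul, neg_mul_neg, mul_inv_cancel₀ (h.par i hi).hc, one_smul]
        have h3 : V j ∈ Algebra.adjoin k ({g | ∀ i, br g (U i) = 0 ∧ br g (V i) = 0} ∪
            (Set.range U ∪ Set.range V)) := Algebra.subset_adjoin (Or.inr (Or.inr ⟨j, rfl⟩))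
        rw [h2]
        exact Subalgebra.smul_mem _ h3 _

/-- the splitting statement is inherited from the translated action -/
theorem SplitAt.of_conj {ρ ρ' : (Fin d → kˣ) →* (Pol k m ≃ₐ[k] Pol k m)}
    {τ : Pol k m ≃ₐ[k] Pol k m} (hτ : Symp τ) (h : ∀ t, ρ' t = τ * ρ t * τ⁻¹)
    (hD : SplitAt ρ') : SplitAt ρ := by
  obtain ⟨u, v, w, h1, h2, h3, h4, h5, h6⟩ := hD
  have hs : ∀ f g, τ.symm (br f g) = br (τ.symm f) (τ.symm g) := by
    intro f g
    rw [AlgEquiv.symm_apply_eq, hτ, AlgEquiv.apply_symm_apply, AlgEquiv.apply_symm_apply]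
  have hr : ∀ t f, ρ t (τ.symm f) = τ.symm (ρ' t f) := by
    intro t f
    rw [h t]
    change _ = τ.symm (τ (ρ t (τ.symm f)))
    rw [AlgEquiv.symm_apply_apply]
  have hK : ∀ f : Pol k m, (∀ i, br f (τ.symm (u i)) = 0 ∧ br f (τ.symm (v i)) = 0) ↔
      (∀ i, br (τ f) (u i) = 0 ∧ br (τ f) (v i) = 0) := by
    intro f
    have key : ∀ g, br f (τ.symm g) = τ.symm (br (τ f) g) := by
      intro g
      rw [hs, AlgEquiv.symm_apply_apply]
    simp only [key, map_eq_zero_iff _ τ.symm.injective]
  refine ⟨fun i => τ.symm (u i), fun i => τ.symm (v i), w, ?_, ?_, ?_, ?_, ?_, ?_⟩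
  · intro t i
    refine ⟨?_, ?_⟩
    · rw [hr, (h1 t i).1, map_mul, ← algebraMap_eq, AlgEquiv.commutes]
    · rw [hr, (h1 t i).2, map_mul, ← algebraMap_eq, AlgEquiv.commutes]
  · intro i j
    rw [← hs, h2]
    split_ifs
    · exact map_one _
    · exact map_zero _
  · intro i j; rw [← hs, h3, map_zero]
  · intro i j; rw [← hs, h4, map_zero]
  · intro f hf t
    have h7 := h5 (τ f) ((hK f).1 hf) t
    have h8 := hr t (τ f)
    rw [AlgEquiv.symm_apply_apply, h7, AlgEquiv.symm_apply_apply] at h8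
    exact h8
  · intro f
    have h7 := h6 (τ f)
    have h8 : τ.symm (τ f) ∈ (Algebra.adjoin k ({g | ∀ i, br g (u i) = 0 ∧ br g (v i) = 0} ∪
        (Set.range u ∪ Set.range v))).map (τ.symm : Pol k m →ₐ[k] Pol k m) :=
      ⟨τ f, h7, rfl⟩
    rw [AlgEquiv.symm_apply_apply, AlgHom.map_adjoin] at h8
    refine Algebra.adjoin_le ?_ h8
    rintro _ ⟨g, hg, rfl⟩
    change τ.symm g ∈ _
    rcases hg with hg | ⟨i, rfl⟩ | ⟨i, rfl⟩
    · refine Algebra.subset_adjoin (Or.inl ?_)
      change ∀ i, _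
      rw [hK, AlgEquiv.apply_symm_apply]
      exact hg
    · exact Algebra.subset_adjoin (Or.inr (Or.inl ⟨i, rfl⟩))
    · exact Algebra.subset_adjoin (Or.inr (Or.inr ⟨i, rfl⟩))

/-- translation and derivatives -/
theorem pd_trans {τ : Pol k m ≃ₐ[k] Pol k m} (hτ : Symp τ) {p : Fin m ⊕ Fin m → k}
    (hX : ∀ s, τ (X s) = X s + C (p s)) (s : Fin m ⊕ Fin m) (f : Pol k m) :
    pderiv s (τ f) = τ (pderiv s f) := by
  have key : ∀ s, br (τ f) (X s) = τ (br f (X s)) := by
    intro s
    rw [hτ, hX, br_add, br_C, add_zero]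
  rcases s with j | j
  · have h1 := key (Sum.inr j)
    rw [br_inr, br_inr] at h1
    exact h1
  · have h1 := key (Sum.inl j)
    rw [br_inl, br_inl, map_neg, neg_inj] at h1
    exact h1

/-- splitting at a fixed point with the largest possible fixed locus -/
theorem asm_split (hDAR : T_DAR) (hTRA : T_TRA) (hCJG : T_CJG) (hGRD : T_GRD) (hSPN : T_SPN)
    (hLIN : T_LIN) (hSPL : T_SPL) (hNPS : T_NPS) (hSPG : T_SPG) (hKFC : T_KFC)
    (ρ : (Fin d → kˣ) →* (Pol k m ≃ₐ[k] Pol k m)) (hA : AlgAct ρ) (hs : ∀ t, Symp (ρ t))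
    (hk : {t | ρ t = 1}.Finite) (p : Fin m ⊕ Fin m → k)
    (hp : ∀ t f, eval p (ρ t f) = eval p f)
    (hF : 2 * (m - d) ≤ Module.finrank k (Submodule.span k
      {g : Fin m ⊕ Fin m → k | ∃ f : Pol k m, (∀ t, ρ t f = f) ∧
        g = fun s => eval p (pderiv s f)})) : SplitAt ρ := by
  classical
  have hG : Gr (Wt ρ) := hGRD k (Fin m ⊕ Fin m) d ρ hA
  obtain ⟨τ, h1, hX, h3⟩ := hTRA k m p
  obtain ⟨ρ', h4, h5, h6⟩ := hCJG k m d ρ p τ hG hs h1 h3 hp
  obtain ⟨y, w, h7⟩ := hDAR k m _ (Wt ρ') h5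
  refine SplitAt.of_conj h1 h4 ?_
  have hk' : {t | ρ' t = 1}.Finite := by rw [ker_conj h4]; exact hk
  have h8 := hSPN k m d ρ' y w h5 h7 hk'
  have hdim := grad_dim h5 h7 (Submodule.span k
      {g : Fin m ⊕ Fin m → k | ∃ f : Pol k m, (∀ t, ρ t f = f) ∧
        g = fun s => eval p (pderiv s f)}) (by
    intro g hg
    induction hg using Submodule.span_induction with
    | mem g hg =>
      obtain ⟨f, hf, rfl⟩ := hg
      refine ⟨τ f, ?_, ?_⟩
      · rw [h6]
        change ∀ t, ρ t (τ.symm (τ f)) = _ • (τ.symm (τ f))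
        intro t
        rw [AlgEquiv.symm_apply_apply, hf t, chr_zero, Units.val_one, one_smul]
      · funext s
        rw [pd_trans h1 hX, h3]
    | zero =>
      refine ⟨0, Submodule.zero_mem _, ?_⟩
      funext s
      rw [map_zero, map_zero]; rfl
    | add a b _ _ ha hb =>
      obtain ⟨f, hf, rfl⟩ := ha
      obtain ⟨f', hf', rfl⟩ := hb
      refine ⟨f + f', Submodule.add_mem _ hf hf', ?_⟩
      funext s
      rw [Pi.add_apply, map_add, map_add]
    | smul r a _ ha =>
      obtain ⟨f, hf, rfl⟩ := ha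
      refine ⟨r • f, Submodule.smul_mem _ _ hf, ?_⟩
      funext s
      rw [Pi.smul_apply, Derivation.map_smul, smul_eq_C_mul, map_mul, constantCoeff_C,
        smul_eq_mul])
  have hcard : Nat.card {i // w i = 0} + Nat.card {i // w i ≠ 0} = m := by
    rw [Nat.card_eq_fintype_card, Nat.card_eq_fintype_card]
    have := Fintype.card_subtype_compl (fun i => w i = 0)
    have h9 : Fintype.card {i // w i = 0} ≤ Fintype.card (Fin m) := Fintype.card_subtype_le _
    rw [Fintype.card_fin] at this h9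
    have h10 : Fintype.card {i // w i ≠ 0} = Fintype.card {i // ¬ w i = 0} := rfl
    omega
  have hle : Nat.card {i // w i ≠ 0} ≤ d := by omega
  obtain ⟨h9, h10⟩ := hLIN m d w h8 hle
  obtain ⟨π, u, v, c, h11⟩ := hSPL k m _ (Wt ρ') y w h5 h7 h10
  exact split_of_spl hNPS hSPG hKFC ρ' h11 h9

end split

end Pool.Agent.H2.ST
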