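import Pool.Agent.H11.ST2.KRL
import Pool.Agent.H13.ST.FNA
import Pool.Agent.H14.ST2.INF
import Pool.Agent.H14.ST2.PLD
import Pool.Agent.H20.ST2.GEN
import Pool.Agent.H20.ST2.PLB
import Pool.Agent.H21.ST2.EUL
import Pool.Agent.H34.ST2.CJG
import Pool.Agent.H34.ST2.PLN
import Pool.Agent.H35.ST2.FNB
import Pool.Agent.H35.ST2.SLA
import Pool.Agent.H36.ST2.NIL
import Pool.Agent.H37.ST2.PLA
import Pool.Agent.H38.ST2.ONE
import Pool.Agent.H41.ST2.KFC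
import Pool.Agent.H41.ST2.PRM
import Pool.Agent.H42.ST2.COM
import Pool.Agent.H42.ST2.DEG
import Pool.Agent.H42.ST2.LDV
import Pool.Agent.H42.ST2.LFC
import Pool.Agent.H42.ST2.PAR
import Pool.Agent.H42.ST2.TRC
import Pool.Agent.H43.ST.FAC
import Pool.Agent.H43.ST.STB
import Pool.Agent.H48.ST2.CNT
import Pool.Agent.H48.ST2.CONX
import Pool.Agent.H48.ST2.NPS
import Pool.Agent.H50.ST2.BOX
import Pool.Agent.H50.ST2.SPN
import Pool.Agent.H55.ST2.MSL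
import Pool.Agent.H55.ST2.POI
import Pool.Agent.H55.ST2.SLC
import Pool.Agent.H57.ST2.HMF
import Pool.Agent.H57.ST2.TOP
import Pool.Agent.H63.ST2.FIN
import Pool.Agent.H63.ST2.OPT
import Pool.Agent.H67.ST2.CHI
import Pool.Agent.H67.ST2.FIX
import Pool.Agent.H67.ST2.GRD
import Pool.Agent.H74.ST2.DVM
import Pool.Agent.H75.ST2.PLE
import Pool.Agent.H75.ST2.SPG
import Pool.Agent.H80.ST2.TRM
import Pool.Agent.H82.ST2.PLF
import Pool.Agent.H90.ST2.DAR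
import Pool.Agent.H90.ST2.PHI
import Pool.Agent.H91.ST2.COA
import Pool.Agent.H91.ST2.SPL
import Pool.Agent.H99.ST2.LIN
import Pool.Agent.H99.ST2.TRA
import Pool.Agent.H2.ST.Split

/-!
Symplectic torus actions on affine space (MP_51eb24_ag): all rows.
-/

set_option autoImplicit false

namespace Pool.Agent.H2.ST.All

open Pool.Agent.H2.ST

theorem a_BOX : T_BOX := Pool.Agent.H50.ST2.pf_BOX

theorem a_CHI : T_CHI := Pool.Agent.H67.ST2.pf_CHI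

theorem a_PGR : T_PGR := Pool.Agent.H67.ST2.pf_PGR

theorem a_CJG : T_CJG := Pool.Agent.H34.ST2.pf_CJG a_PGR

theorem a_CNT : T_CNT := Pool.Agent.H48.ST2.pf_CNT

theorem a_COA : T_COA := Pool.Agent.H91.ST2.pf_COA

theorem a_COM : T_COM := Pool.Agent.H42.ST2.pf_COM

theorem a_CON : T_CON := Pool.Agent.H48.ST2.pf_CON

theorem a_DAR : T_DAR := Pool.Agent.H90.ST2.pf_DAR

theorem a_DEG : T_DEG := Pool.Agent.H42.ST2.pf_DEG

theorem a_DVM : T_DVM := Pool.Agent.H74.ST2.DVM.pf_DVM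

theorem a_POI : T_POI := Pool.Agent.H55.ST2.pf_POI

theorem a_EUL : T_EUL := Pool.Agent.H21.ST2.pf_EUL a_POI

theorem a_FAC : T_FAC := Pool.Agent.H43.ST.pf_FAC

theorem a_FIN : T_FIN := Pool.Agent.H63.ST2.pf_FIN

theorem a_FIX : T_FIX := Pool.Agent.H67.ST2.pf_FIX

theorem a_NIL : T_NIL := Pool.Agent.H36.ST2.pf_NIL

theorem a_NPS : T_NPS := Pool.Agent.H48.ST2.pf_NPS a_NIL

theorem a_SLC : T_SLC := Pool.Agent.H55.ST2.pf_SLC

theorem a_MSL : T_MSL := Pool.Agent.H55.ST2.pf_MSL a_SLC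

theorem a_TRM : T_TRM := Pool.Agent.H80.ST2.pf_TRM

theorem a_SPG : T_SPG := Pool.Agent.H75.ST2.pf_SPG a_MSL a_TRM

theorem a_FNA : T_FNA := Pool.Agent.H13.ST.pf_FNA a_NPS a_SPG

theorem a_LFC : T_LFC := Pool.Agent.H42.ST2.pf_LFC a_DEG

theorem a_KFC : T_KFC := Pool.Agent.H41.ST2.pf_KFC a_LFC

theorem a_LDV : T_LDV := Pool.Agent.H42.ST2.pf_LDV a_DEG

theorem a_HMF : T_HMF := Pool.Agent.H57.ST2.pf_HMF a_LDV a_LFC a_DVM

theorem a_TOP : T_TOP := Pool.Agent.H57.ST2.pf_TOP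

theorem a_PHI : T_PHI := Pool.Agent.H90.ST2.pf_PHI a_NIL a_HMF a_TOP a_BOX a_CNT

theorem a_TRC : T_TRC := Pool.Agent.H42.ST2.pf_TRC a_DEG

theorem a_PLA : T_PLA := Pool.Agent.H37.ST2.pf_PLA a_TRC

theorem a_PLB : T_PLB := Pool.Agent.H20.ST2.pf_PLB a_TRC a_LFC

theorem a_PLD : T_PLD := Pool.Agent.H14.ST2.pf_PLD

theorem a_PLF : T_PLF := Pool.Agent.H82.ST2.pf_PLF a_TRC

theorem a_PLE : T_PLE := Pool.Agent.H75.ST2.pf_PLE

theorem a_PLN : T_PLN := Pool.Agent.H34.ST2.pf_PLN a_SLC a_PLA a_PLB a_PLD a_PLF a_PLE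

theorem a_FNB : T_FNB := Pool.Agent.H35.ST2.pf_FNB a_NPS a_SPG a_KFC a_PHI a_PLN

theorem a_GEN : T_GEN := Pool.Agent.H20.ST2.pf_GEN

theorem a_GRD : T_GRD := Pool.Agent.H67.ST2.pf_GRD

theorem a_INF : T_INF := Pool.Agent.H14.ST2.pf_INF

theorem a_STB : T_STB := Pool.Agent.H43.ST.pf_STB

theorem a_KRL : T_KRL := Pool.Agent.H11.ST2.pf_KRL a_STB a_GEN

theorem a_LIN : T_LIN := Pool.Agent.H99.ST2.pf_LIN

theorem a_ONE : T_ONE := Pool.Agent.H38.ST2.pf_ONE a_KRL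

theorem a_SLA : T_SLA := Pool.Agent.H35.ST2.pf_SLA a_SLC a_TRC

theorem a_OPT : T_OPT := Pool.Agent.H63.ST2.pf_OPT a_EUL a_SLA a_CON

theorem a_PRM : T_PRM := Pool.Agent.H41.ST2.pf_PRM a_FAC

theorem a_PAR : T_PAR := Pool.Agent.H42.ST2.pf_PAR a_PRM a_COA a_ONE a_OPT

theorem a_SPL : T_SPL := Pool.Agent.H91.ST2.pf_SPL a_PAR a_COM a_KRL

theorem a_SPN : T_SPN := Pool.Agent.H50.ST2.pf_SPN a_KRL

theorem a_TRA : T_TRA := Pool.Agent.H99.ST2.pf_TRA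

end Pool.Agent.H2.ST.All
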