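import Pool.Agent.H2.ST.Targets

/-!
Symplectic torus actions on affine space (MP_51eb24_ag): assembly of the rows.
-/

set_option autoImplicit false

namespace Pool.Agent.H2.ST

open MvPolynomial

set_option linter.unusedSectionVars false

/-- the conclusion: the action is conjugate, by a symplectic automorphism, to a diagonal one -/
def Dia {k : Type} [Field k] {m d : ℕ} (ρ : (Fin d → kˣ) →* (Pol k m ≃ₐ[k] Pol k m)) : Prop :=
  ∃ φ : Pol k m ≃ₐ[k] Pol k m, Symp φ ∧ ∃ w : Fin m → Fin d → ℤ,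
    ∀ (t : Fin d → kˣ) (i : Fin m),
      (φ * ρ t * φ⁻¹) (X (Sum.inl i)) = C ((chr (w i) t : kˣ) : k) * X (Sum.inl i) ∧
      (φ * ρ t * φ⁻¹) (X (Sum.inr i)) = C (((chr (w i) t)⁻¹ : kˣ) : k) * X (Sum.inr i)

variable {k : Type} [Field k] [IsAlgClosed k] [CharZero k] {m d : ℕ}

theorem Symp.mul {φ ψ : Pol k m ≃ₐ[k] Pol k m} (h1 : Symp φ) (h2 : Symp ψ) : Symp (φ * ψ) := by
  intro f g
  change φ (ψ (br f g)) = br (φ (ψ f)) (φ (ψ g))
  rw [h2, h1]

/-- local form: the action fixes `p`; Darboux weights at `p` -/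
theorem local_form (hDAR : T_DAR) (hTRA : T_TRA) (hCJG : T_CJG)
    (ρ : (Fin d → kˣ) →* (Pol k m ≃ₐ[k] Pol k m)) (hG : Gr (Wt ρ)) (hs : ∀ t, Symp (ρ t))
    (p : Fin m ⊕ Fin m → k) (hp : ∀ t f, eval p (ρ t f) = eval p f) :
    ∃ (τ : Pol k m ≃ₐ[k] Pol k m) (ρ' : (Fin d → kˣ) →* (Pol k m ≃ₐ[k] Pol k m))
      (y : Fin m ⊕ Fin m → Pol k m) (w : Fin m → Fin d → ℤ),
      Symp τ ∧ (∀ f, constantCoeff (τ f) = eval p f) ∧ (∀ t, ρ' t = τ * ρ t * τ⁻¹) ∧
      PGr (Wt ρ') ∧ (∀ χ f, f ∈ Wt ρ' χ ↔ τ⁻¹ f ∈ Wt ρ χ) ∧ Ada (Wt ρ') y w := by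
  obtain ⟨τ, h1, -, h3⟩ := hTRA k m p
  obtain ⟨ρ', h4, h5, h6⟩ := hCJG k m d ρ p τ hG hs h1 h3 hp
  obtain ⟨y, w, h7⟩ := hDAR k m _ (Wt ρ') h5
  exact ⟨τ, ρ', y, w, h1, h3, h4, h5, h6, h7⟩

/-- the conclusion is inherited from the translated action -/
theorem Dia.of_conj {ρ ρ' : (Fin d → kˣ) →* (Pol k m ≃ₐ[k] Pol k m)}
    {τ : Pol k m ≃ₐ[k] Pol k m} (hτ : Symp τ) (h : ∀ t, ρ' t = τ * ρ t * τ⁻¹)
    (hD : Dia ρ') : Dia ρ := by
  obtain ⟨φ, h1, w, h2⟩ := hD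
  refine ⟨φ * τ, h1.mul hτ, w, fun t i => ?_⟩
  have h3 : φ * τ * ρ t * (φ * τ)⁻¹ = φ * ρ' t * φ⁻¹ := by
    rw [h t]; group
  rw [h3]
  exact h2 t i

theorem ker_conj {ρ ρ' : (Fin d → kˣ) →* (Pol k m ≃ₐ[k] Pol k m)}
    {τ : Pol k m ≃ₐ[k] Pol k m} (h : ∀ t, ρ' t = τ * ρ t * τ⁻¹) :
    {t | ρ' t = 1} = {t | ρ t = 1} := by
  ext t
  simp only [Set.mem_ofPred_eq]
  rw [h t]
  constructor
  · intro h1
    have h2 : τ * ρ t = τ := by
      rw [mul_inv_eq_one] at h1; exact h1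
    calc ρ t = τ⁻¹ * (τ * ρ t) := by group
      _ = 1 := by rw [h2]; group
  · intro h1
    rw [h1]; group

theorem card_le (w : Fin m → Fin d → ℤ) : Nat.card {i // w i ≠ 0} ≤ m := by
  classical
  rw [Nat.card_eq_fintype_card]
  exact (Fintype.card_subtype_le _).trans (by rw [Fintype.card_fin])

theorem card_lt {w : Fin m → Fin d → ℤ} {i0 : Fin m} (h : w i0 = 0) :
    Nat.card {i // w i ≠ 0} < m := by
  classical
  rw [Nat.card_eq_fintype_card]
  exact (Fintype.card_subtype_lt (x := i0) (by simpa using h)).trans_eq (Fintype.card_fin m)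

theorem all_of_card {w : Fin m → Fin d → ℤ} (h : Nat.card {i // w i ≠ 0} = m) : ∀ i, w i ≠ 0 := by
  intro i hi
  exact absurd (card_lt hi) (by omega)

theorem one_of_card {w : Fin m → Fin d → ℤ} {i0 : Fin m} (h0 : w i0 = 0)
    (h : Nat.card {i // w i ≠ 0} + 1 = m) : ∀ i, i ≠ i0 → w i ≠ 0 := by
  classical
  intro i hi hw
  rw [Nat.card_eq_fintype_card, Fintype.card_subtype] at h
  have h1 : (Finset.univ.filter fun i => w i ≠ 0) ⊆ (Finset.univ.erase i0).erase i := by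
    intro j hj
    rw [Finset.mem_filter] at hj
    rw [Finset.mem_erase, Finset.mem_erase]
    refine ⟨?_, ?_, Finset.mem_univ _⟩
    · rintro rfl; exact hj.2 hw
    · rintro rfl; exact hj.2 h0
  have h2 := Finset.card_le_card h1
  rw [Finset.card_erase_of_mem (by simp [hi]), Finset.card_erase_of_mem (Finset.mem_univ _),
    Finset.card_univ, Fintype.card_fin] at h2
  have h3 : 0 < m := i0.pos
  have h4 : 1 < m := by
    have := Finset.card_le_card (Finset.subset_univ {i, i0})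
    rw [Finset.card_pair hi, Finset.card_univ, Fintype.card_fin] at this
    omega
  omega

/-- fixed points are the points of the ideal generated by the nonzero weights -/
theorem fixed_iff {ρ : (Fin d → kˣ) →* (Pol k m ≃ₐ[k] Pol k m)} (hG : Gr (Wt ρ))
    (p : Fin m ⊕ Fin m → k)
    (h : Ideal.span {f : Pol k m | ∃ χ, χ ≠ 0 ∧ f ∈ Wt ρ χ} ≤
      RingHom.ker (eval p : Pol k m →+* k)) (t : Fin d → kˣ) (f : Pol k m) :
    eval p (ρ t f) = eval p f := by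
  classical
  have h1 : ∀ χ, χ ≠ 0 → ∀ g ∈ Wt ρ χ, eval p g = 0 := fun χ hχ g hg =>
    RingHom.mem_ker.1 (h (Ideal.subset_span ⟨χ, hχ, hg⟩))
  rw [← cmp_sum hG f]
  unfold Finsupp.sum
  rw [map_sum, map_sum, map_sum]
  refine Finset.sum_congr rfl fun χ _ => ?_
  have h2 := cmp_mem hG f χ
  have h3 := h2 t
  rw [h3]
  by_cases hχ : χ = 0
  · subst hχ
    have h4 : (chr (0 : Fin d → ℤ) t : kˣ) = 1 := by
      unfold chr; simp
    rw [h4, Units.val_one, one_smul]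
  · rw [smul_eq_C_mul, map_mul, h1 χ hχ _ h2, mul_zero]

theorem chr_zero (t : Fin d → kˣ) : (chr (0 : Fin d → ℤ) t : kˣ) = 1 := by
  unfold chr; simp

/-- infinitely many fixed points: there is one where the weight zero occurs -/
theorem exists_zero (hDAR : T_DAR) (hTRA : T_TRA) (hCJG : T_CJG) (hGEN : T_GEN) (hINF : T_INF)
    (hFS : ∀ (ρ : (Fin d → kˣ) →* (Pol k m ≃ₐ[k] Pol k m)) (p : Fin m ⊕ Fin m → k),
      (∀ t f, eval p (ρ t f) = eval p f) → ∀ χ, χ ≠ 0 → ∀ g ∈ Wt ρ χ, eval p g = 0)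
    (ρ : (Fin d → kˣ) →* (Pol k m ≃ₐ[k] Pol k m)) (hG : Gr (Wt ρ)) (hs : ∀ t, Symp (ρ t))
    (hinf : {p : Fin m ⊕ Fin m → k | ∀ t f, eval p (ρ t f) = eval p f}.Infinite) :
    ∃ (τ : Pol k m ≃ₐ[k] Pol k m) (ρ' : (Fin d → kˣ) →* (Pol k m ≃ₐ[k] Pol k m))
      (y : Fin m ⊕ Fin m → Pol k m) (w : Fin m → Fin d → ℤ) (i0 : Fin m),
      Symp τ ∧ (∀ t, ρ' t = τ * ρ t * τ⁻¹) ∧ PGr (Wt ρ') ∧ Ada (Wt ρ') y w ∧ w i0 = 0 := by
  by_contra hcon
  push Not at hcon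
  apply hinf
  refine (hINF k (Fin m ⊕ Fin m) (Ideal.span {f : Pol k m | ∃ χ, χ ≠ 0 ∧ f ∈ Wt ρ χ}) ?_).subset ?_
  · intro p hJ
    have hp := fixed_iff hG p hJ
    obtain ⟨τ, ρ', y, w, h1, h3, h4, h5, h6, h7⟩ := local_form hDAR hTRA hCJG ρ hG hs p hp
    have hw : ∀ i, w i ≠ 0 := fun i => hcon τ ρ' y w i h1 h4 h5 h7
    have hgen := (hGEN k m _ (Wt ρ') y w h7).1
    intro f hf
    rw [RingHom.mem_ker] at hf
    have h8 : τ f ∈ mo k m := by
      rw [RingHom.mem_ker, h3]; exact hf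
    have h9 := hgen h8
    -- transport by the inverse of τ
    have h10 : (Ideal.span (Set.range y) ⊔ (mo k m) ^ 2) ≤
        Ideal.comap ((τ⁻¹ : Pol k m ≃ₐ[k] Pol k m) : Pol k m →+* Pol k m)
          (RingHom.ker (eval p : Pol k m →+* k) ^ 2 ⊔
            Ideal.span {f : Pol k m | ∃ χ, χ ≠ 0 ∧ f ∈ Wt ρ χ}) := by
      refine sup_le ?_ ?_
      · rw [Ideal.span_le]
        rintro _ ⟨s, rfl⟩
        rw [SetLike.mem_coe, Ideal.mem_comap]
        refine Ideal.mem_sup_right (Ideal.subset_span ?_)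
        rcases s with i | i
        · exact ⟨w i, hw i, (h6 _ _).1 (h7.hl i)⟩
        · exact ⟨-w i, neg_ne_zero.2 (hw i), (h6 _ _).1 (h7.hr i)⟩
      · refine le_trans ?_ (Ideal.comap_mono le_sup_left)
        refine le_trans ?_ (Ideal.le_comap_pow _ 2)
        refine Ideal.pow_right_mono ?_ 2
        intro g hg
        rw [RingHom.mem_ker] at hg
        rw [Ideal.mem_comap, RingHom.mem_ker]
        change eval p (τ⁻¹ g) = 0
        rw [← h3]
        change constantCoeff (τ (τ.symm g)) = 0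
        rw [AlgEquiv.apply_symm_apply]; exact hg
    have h11 := h10 h9
    rw [Ideal.mem_comap] at h11
    change τ.symm (τ f) ∈ _ at h11
    rw [AlgEquiv.symm_apply_apply] at h11
    exact h11
  · intro p hp
    rw [Set.mem_ofPred_eq] at hp ⊢
    rw [Ideal.span_le]
    rintro g ⟨χ, hχ, hg⟩
    rw [SetLike.mem_coe, RingHom.mem_ker]
    exact hFS ρ p hp χ hχ g hg

/-- semi-invariants of nontrivial weight vanish at fixed points -/
theorem van_fixed (ρ : (Fin d → kˣ) →* (Pol k m ≃ₐ[k] Pol k m)) (p : Fin m ⊕ Fin m → k)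
    (hp : ∀ t f, eval p (ρ t f) = eval p f) (χ : Fin d → ℤ) (hχ : χ ≠ 0) (g : Pol k m)
    (hg : g ∈ Wt ρ χ) : eval p g = 0 := by
  classical
  obtain ⟨j, hj⟩ : ∃ j, χ j ≠ 0 := by
    by_contra hc
    push Not at hc
    exact hχ (funext hc)
  obtain ⟨s, hs⟩ : ∃ s : kˣ, s ^ (χ j) ≠ 1 := by
    by_contra hc
    push Not at hc
    have h1 : ∀ s : k, s ≠ 0 → s ^ (χ j).natAbs = 1 := by
      intro s hs0
      have h2 := hc (Units.mk0 s hs0)
      have h3 : (Units.mk0 s hs0) ^ ((χ j).natAbs : ℤ) = 1 := by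
        rcases Int.natAbs_eq (χ j) with h | h
        · rw [← h]; exact h2
        · rw [show ((χ j).natAbs : ℤ) = -(χ j) by omega, zpow_neg, h2, inv_one]
      rw [zpow_natCast] at h3
      have h4 := congrArg (fun x : kˣ => (x : k)) h3
      simpa using h4
    have hn : 0 < (χ j).natAbs := Int.natAbs_pos.2 hj
    have h5 : (Polynomial.X ^ (χ j).natAbs - 1 : Polynomial k).roots.toFinset.card ≤
        (χ j).natAbs := by
      refine le_trans (Multiset.toFinset_card_le _) ?_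
      refine le_trans (Polynomial.card_roots' _) ?_
      rw [← Polynomial.C_1, Polynomial.natDegree_X_pow_sub_C]
    have h6 : (Polynomial.X ^ (χ j).natAbs - 1 : Polynomial k) ≠ 0 := by
      rw [← Polynomial.C_1]
      exact Polynomial.X_pow_sub_C_ne_zero hn 1
    have h7 : (Set.univ \ {0} : Set k).Finite := by
      refine ((Polynomial.X ^ (χ j).natAbs - 1 : Polynomial k).roots.toFinset.finite_toSet).subset ?_
      intro s hs0
      rw [Finset.mem_coe, Multiset.mem_toFinset, Polynomial.mem_roots h6, Polynomial.IsRoot.def]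
      rw [Polynomial.eval_sub, Polynomial.eval_pow, Polynomial.eval_X, Polynomial.eval_one,
        h1 s (by simpa using hs0.2), sub_self]
    have h8 : (Set.univ : Set k).Finite := by
      refine (h7.union (Set.finite_singleton (0 : k))).subset ?_
      intro x _
      by_cases hx : x = 0
      · right; exact hx
      · left; exact ⟨Set.mem_univ _, hx⟩
    exact Set.infinite_univ h8
  have h1 := hg (Pi.mulSingle j s)
  have h2 := hp (Pi.mulSingle j s) g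
  have h3 : (chr χ (Pi.mulSingle j s) : kˣ) = s ^ (χ j) := by
    unfold chr
    rw [Finset.prod_eq_single j]
    · rw [Pi.mulSingle_eq_same]
    · intro b _ hb
      rw [Pi.mulSingle_eq_of_ne hb, one_zpow]
    · intro h; exact absurd (Finset.mem_univ _) h
  rw [h1, h3, smul_eq_C_mul, map_mul, eval_C] at h2
  have h4 : (((s ^ (χ j) : kˣ) : k) - 1) * eval p g = 0 := by
    rw [sub_mul, h2, one_mul, sub_self]
  rcases mul_eq_zero.1 h4 with h5 | h5
  · exfalso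
    apply hs
    apply Units.ext
    rw [Units.val_one]
    exact sub_eq_zero.1 h5
  · exact h5

/-- assembly of the rows -/
theorem asm (hDAR : T_DAR) (hTRA : T_TRA) (hCJG : T_CJG) (hGEN : T_GEN) (hINF : T_INF)
    (hGRD : T_GRD) (hFIX : T_FIX) (hSPN : T_SPN) (hLIN : T_LIN) (hSPL : T_SPL) (hFNA : T_FNA)
    (hFNB : T_FNB) (hFIN : T_FIN)
    (ρ : (Fin d → kˣ) →* (Pol k m ≃ₐ[k] Pol k m)) (hA : AlgAct ρ) (hs : ∀ t, Symp (ρ t))
    (hk : {t | ρ t = 1}.Finite)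
    (h : d = m ∨ (d + 1 = m ∧
      {p : Fin m ⊕ Fin m → k | ∀ t f, eval p (ρ t f) = eval p f}.Infinite)) : Dia ρ := by
  have hG : Gr (Wt ρ) := hGRD k (Fin m ⊕ Fin m) d ρ hA
  rcases h with h | ⟨h, hinf⟩
  · subst h
    obtain ⟨p, hp⟩ := hFIX k (Fin d ⊕ Fin d) d ρ hA
    obtain ⟨τ, ρ', y, w, h1, h3, h4, h5, h6, h7⟩ := local_form hDAR hTRA hCJG ρ hG hs p hp
    refine Dia.of_conj h1 h4 ?_
    have hk' : {t | ρ' t = 1}.Finite := by rw [ker_conj h4]; exact hk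
    have h8 := hSPN k d d ρ' y w h5 h7 hk'
    obtain ⟨h9, h10⟩ := hLIN d d w h8 (card_le w)
    obtain ⟨π, u, v, c, h11⟩ := hSPL k d _ (Wt ρ') y w h5 h7 h10
    obtain ⟨z, z1, z2, z3, z4, z5, z6⟩ := hFNA k d _ (Wt ρ') w π u v c h11 (all_of_card h9)
    obtain ⟨φ, hφ, h12⟩ := hFIN k d d ρ' z w z1 z2 z3 z4 z5 z6
    exact ⟨φ, hφ, w, h12⟩
  · obtain ⟨τ, ρ', y, w, i0, h1, h4, h5, h7, h0⟩ := exists_zero hDAR hTRA hCJG hGEN hINF
      (fun ρ p hp χ hχ g hg => van_fixed ρ p hp χ hχ g hg) ρ hG hs hinf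
    refine Dia.of_conj h1 h4 ?_
    have hk' : {t | ρ' t = 1}.Finite := by rw [ker_conj h4]; exact hk
    have h8 := hSPN k m d ρ' y w h5 h7 hk'
    have hc := card_lt h0
    obtain ⟨h9, h10⟩ := hLIN m d w h8 (by omega)
    obtain ⟨π, u, v, c, h11⟩ := hSPL k m _ (Wt ρ') y w h5 h7 h10
    obtain ⟨z, z1, z2, z3, z4, z5, z6⟩ := hFNB k m d (Wt ρ') w π u v c i0 h11 h h0
      (one_of_card h0 (by omega))
    obtain ⟨φ, hφ, h12⟩ := hFIN k m d ρ' z w z1 z2 z3 z4 z5 z6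
    exact ⟨φ, hφ, w, h12⟩

end Pool.Agent.H2.ST
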