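import Mathlib

/-!
Symplectic torus actions on affine space (MP_51eb24_ag): definitions.
-/

set_option autoImplicit false

namespace Pool.Agent.H2.ST

open MvPolynomial

/-- the polynomial ring in the coordinates `x_i` (index `inl i`) and `y_i` (index `inr i`) -/
abbrev Pol (k : Type) [Field k] (m : ℕ) : Type := MvPolynomial (Fin m ⊕ Fin m) k

section bracket

variable {k : Type} [Field k] {m : ℕ}

/-- the standard Poisson bracket -/
noncomputable def br (f g : Pol k m) : Pol k m :=
  ∑ i : Fin m, (pderiv (Sum.inl i) f * pderiv (Sum.inr i) g -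
    pderiv (Sum.inr i) f * pderiv (Sum.inl i) g)

end bracket

/-- locally nilpotent derivation of a commutative ring -/
structure LND {R : Type} [CommRing R] (D : R → R) : Prop where
  add : ∀ a b, D (a + b) = D a + D b
  mul : ∀ a b, D (a * b) = a * D b + b * D a
  nil : ∀ a, ∃ n : ℕ, D^[n] a = 0

/-- grading of a commutative algebra by an abelian group (internal, with finite sums written as
finitely supported functions) -/
structure Gr {k A Γ : Type} [Field k] [CommRing A] [Algebra k A] [AddCommGroup Γ]
    (W : Γ → Submodule k A) : Prop where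
  one : (1 : A) ∈ W 0
  mul : ∀ a b f g, f ∈ W a → g ∈ W b → f * g ∈ W (a + b)
  dec : ∀ f : A, ∃ c : Γ →₀ A, (∀ a, c a ∈ W a) ∧ (c.sum fun _ x => x) = f
  ind : ∀ c : Γ →₀ A, (∀ a, c a ∈ W a) → (c.sum fun _ x => x) = 0 → c = 0

/-- grading of the Poisson algebra such that homogeneous elements of weight `≠ 0` vanish at the
origin (the origin is a fixed point) -/
structure PGr {k Γ : Type} [Field k] [AddCommGroup Γ] {m : ℕ} (W : Γ → Submodule k (Pol k m)) :
    Prop extends Gr W where
  pbr : ∀ a b f g, f ∈ W a → g ∈ W b → br f g ∈ W (a + b)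
  van : ∀ a, a ≠ 0 → ∀ f ∈ W a, constantCoeff f = 0

section action

variable {k : Type} [Field k] {σ : Type} {d : ℕ}

/-- algebraic action of the torus `(k^*)^d` on affine space (as in the frozen statement) -/
def AlgAct (ρ : (Fin d → kˣ) →* (MvPolynomial σ k ≃ₐ[k] MvPolynomial σ k)) : Prop :=
  ∃ (N : ℕ) (F : σ → MvPolynomial (Fin d ⊕ σ) k), ∀ (t : Fin d → kˣ) (j : σ),
    C ((∏ i, ((t i : kˣ) : k)) ^ N) * ρ t (X j) =
      aeval (Sum.elim (fun i : Fin d => (C ((t i : kˣ) : k) : MvPolynomial σ k))
        (fun l : σ => (X l : MvPolynomial σ k))) (F j)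

/-- the character `t ↦ t^χ` of the torus -/
def chr (χ : Fin d → ℤ) (t : Fin d → kˣ) : kˣ := ∏ i, (t i) ^ (χ i)

/-- the weight spaces of a torus action -/
def Wt (ρ : (Fin d → kˣ) →* (MvPolynomial σ k ≃ₐ[k] MvPolynomial σ k)) (χ : Fin d → ℤ) :
    Submodule k (MvPolynomial σ k) where
  carrier := {f | ∀ t, ρ t f = ((chr χ t : kˣ) : k) • f}
  add_mem' := by
    intro a b ha hb t
    rw [map_add, ha t, hb t, smul_add]
  zero_mem' := by
    intro t
    rw [map_zero, smul_zero]
  smul_mem' := by
    intro c x hx t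
    rw [map_smul, hx t, smul_comm]

/-- symplectic automorphism: the bracket is preserved -/
def Symp {m : ℕ} (φ : Pol k m ≃ₐ[k] Pol k m) : Prop :=
  ∀ f g, φ (br f g) = br (φ f) (φ g)

end action

/-- the subalgebra of elements of weight zero -/
def zeroPart {k A Γ : Type} [Field k] [CommRing A] [Algebra k A] [AddCommGroup Γ]
    {W : Γ → Submodule k A} (h : Gr W) : Subalgebra k A where
  carrier := W 0
  mul_mem' := by
    intro a b ha hb
    have := h.mul 0 0 a b ha hb
    rwa [add_zero] at this
  add_mem' := fun ha hb => (W 0).add_mem ha hb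
  algebraMap_mem' := by
    intro r
    rw [Algebra.algebraMap_eq_smul_one]
    exact (W 0).smul_mem r h.one

end Pool.Agent.H2.ST
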