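import Pool.Agent.H2.ST.Basic2

/-!
Symplectic torus actions on affine space (MP_51eb24_ag): targets of the board `st2_modules`.
-/

set_option autoImplicit false

namespace Pool.Agent.H2.ST

open MvPolynomial

/-! ### Locally nilpotent derivations of a commutative domain -/

/-- degree function of a locally nilpotent derivation -/
def T_DEG : Prop := ∀ (R : Type) [CommRing R] [IsDomain R] [CharZero R] (D : R → R), LND D →
  ∃ dg : R → ℕ, (∀ a, dg a = 0 ↔ D a = 0) ∧ (∀ a b, a * b ≠ 0 → dg (a * b) = dg a + dg b) ∧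
    (∀ a, D a ≠ 0 → dg (D a) + 1 = dg a)

/-- slice theorem -/
def T_SLC : Prop := ∀ (R : Type) [CommRing R] [Algebra ℚ R] (D : R → R), LND D →
  ∀ s : R, D s = 1 → ∀ f : R, ∃ P : Polynomial R, (∀ i, D (P.coeff i) = 0) ∧ P.eval s = f

/-- a local slice is transcendental over the kernel -/
def T_TRC : Prop := ∀ (R : Type) [CommRing R] [IsDomain R] [CharZero R] (D : R → R), LND D →
  ∀ s : R, D s ≠ 0 → D (D s) = 0 →
    ∀ P : Polynomial R, (∀ i, D (P.coeff i) = 0) → P.eval s = 0 → P = 0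

/-- a nonzero locally nilpotent derivation kills the elements dividing their own derivative -/
def T_LDV : Prop := ∀ (R : Type) [CommRing R] [IsDomain R] [CharZero R] (D : R → R), LND D →
  ∀ a : R, a ∣ D a → D a = 0

/-- the kernel is factorially closed -/
def T_LFC : Prop := ∀ (R : Type) [CommRing R] [IsDomain R] [CharZero R] (D : R → R), LND D →
  ∀ a b : R, a * b ≠ 0 → D (a * b) = 0 → D a = 0 ∧ D b = 0

/-- commuting derivations with slices -/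
def T_MSL : Prop := ∀ (k R ι : Type) [Field k] [CharZero k] [CommRing R] [Algebra k R]
  [Fintype ι] [DecidableEq ι] (D : ι → Derivation k R R) (z : ι → R),
  (∀ i j a, D i (D j a) = D j (D i a)) → (∀ i a, ∃ n : ℕ, (D i)^[n] a = 0) →
  (∀ i j, D i (z j) = if i = j then 1 else 0) →
  ∀ f : R, f ∈ Algebra.adjoin k ({g | ∀ i, D i g = 0} ∪ Set.range z)

/-- the slices are algebraically independent over the common kernel: bound for the number of
algebraically independent elements of the common kernel -/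
def T_TRM : Prop := ∀ (k : Type) [Field k] [CharZero k] (m n : ℕ) (ι : Type) [Fintype ι]
  [DecidableEq ι] (D : ι → Derivation k (Pol k m) (Pol k m)) (z : ι → Pol k m)
  (f : Fin n → Pol k m), (∀ i a, ∃ n : ℕ, (D i)^[n] a = 0) →
  (∀ i j, D i (z j) = if i = j then 1 else 0) → (∀ i l, D i (f l) = 0) →
  AlgebraicIndependent k f → n + Fintype.card ι ≤ 2 * m

/-! ### Gradings -/

/-- factors of homogeneous elements are homogeneous -/
def T_FAC : Prop := ∀ (k A Γ : Type) [Field k] [CommRing A] [IsDomain A] [Algebra k A]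
  [AddCommGroup Γ] [TwoUniqueSums Γ] (W : Γ → Submodule k A), Gr W →
  ∀ (a : Γ) (f g : A), f * g ∈ W a → f * g ≠ 0 → ∃ b c : Γ, f ∈ W b ∧ g ∈ W c ∧ b + c = a

/-- coarsening -/
def T_COA : Prop := ∀ (k : Type) [Field k] (m : ℕ) (Γ Γ' : Type) [AddCommGroup Γ]
  [AddCommGroup Γ'] (W : Γ → Submodule k (Pol k m)) (π : Γ →+ Γ'), PGr W → PGr (co W π)

/-- the powers of the maximal ideal of the origin are homogeneous -/
def T_STB : Prop := ∀ (k : Type) [Field k] (m : ℕ) (Γ : Type) [AddCommGroup Γ]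
  (W : Γ → Submodule k (Pol k m)) (h : PGr W) (N : ℕ) (f : Pol k m),
  f ∈ (RingHom.ker (constantCoeff : Pol k m →+* k)) ^ N →
  ∀ a, cmp h.toGr f a ∈ (RingHom.ker (constantCoeff : Pol k m →+* k)) ^ N

/-- abbreviation: the maximal ideal of the origin -/
noncomputable abbrev mo (k : Type) [Field k] (m : ℕ) : Ideal (Pol k m) :=
  RingHom.ker (constantCoeff : Pol k m →+* k)

/-- homogeneous coordinates at the origin, symplectic to first order -/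
structure Ada {k Γ : Type} [Field k] [AddCommGroup Γ] {m : ℕ} (W : Γ → Submodule k (Pol k m))
    (y : Fin m ⊕ Fin m → Pol k m) (w : Fin m → Γ) : Prop where
  hl : ∀ i, y (Sum.inl i) ∈ W (w i)
  hr : ∀ i, y (Sum.inr i) ∈ W (-w i)
  hz : ∀ s, constantCoeff (y s) = 0
  lr : ∀ i j, constantCoeff (br (y (Sum.inl i)) (y (Sum.inr j))) = if i = j then 1 else 0
  ll : ∀ i j, constantCoeff (br (y (Sum.inl i)) (y (Sum.inl j))) = 0
  rr : ∀ i j, constantCoeff (br (y (Sum.inr i)) (y (Sum.inr j))) = 0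

/-- graded symplectic Gram-Schmidt -/
def T_DAR : Prop := ∀ (k : Type) [Field k] (m : ℕ) (Γ : Type) [AddCommGroup Γ]
  (W : Γ → Submodule k (Pol k m)), PGr W →
  ∃ (y : Fin m ⊕ Fin m → Pol k m) (w : Fin m → Γ), Ada W y w

/-- the coordinates generate modulo every power of the maximal ideal -/
def T_GEN : Prop := ∀ (k : Type) [Field k] (m : ℕ) (Γ : Type) [AddCommGroup Γ]
  (W : Γ → Submodule k (Pol k m)) (y : Fin m ⊕ Fin m → Pol k m) (w : Fin m → Γ), Ada W y w →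
  (mo k m ≤ Ideal.span (Set.range y) ⊔ (mo k m) ^ 2) ∧
  ∀ (N : ℕ) (f : Pol k m), ∃ P : Pol k m, f - aeval y P ∈ (mo k m) ^ N

/-- the weight of the monomial `y^α` -/
def wtm {Γ : Type} [AddCommGroup Γ] {m : ℕ} (w : Fin m → Γ) (α : Fin m ⊕ Fin m →₀ ℕ) : Γ :=
  ∑ i : Fin m, ((α (Sum.inl i) : ℤ) - (α (Sum.inr i) : ℤ)) • w i

/-- Krull: divisibility of homogeneous elements, up to a unit of the local ring -/
def T_KRL : Prop := ∀ (k : Type) [Field k] (m : ℕ) (Γ : Type) [AddCommGroup Γ]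
  (W : Γ → Submodule k (Pol k m)) (y : Fin m ⊕ Fin m → Pol k m) (w : Fin m → Γ),
  PGr W → Ada W y w → ∀ (χ : Γ) (f : Pol k m), f ∈ W χ →
  ((∀ α : Fin m ⊕ Fin m →₀ ℕ, wtm w α ≠ χ) → f = 0) ∧
  (∀ (s0 : Fin m ⊕ Fin m) (n : ℕ), (∀ α : Fin m ⊕ Fin m →₀ ℕ, wtm w α = χ → n ≤ α s0) →
    ∃ s : Pol k m, constantCoeff s ≠ 0 ∧ y s0 ^ n ∣ s * f)

/-- the prime factor through the origin of a homogeneous parameter -/
def T_PRM : Prop := ∀ (k : Type) [Field k] (m : ℕ) (Γ : Type) [AddCommGroup Γ]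
  [TwoUniqueSums Γ] (W : Γ → Submodule k (Pol k m)), PGr W →
  ∀ (a : Γ) (y z : Pol k m), y ∈ W a → constantCoeff y = 0 → constantCoeff (br y z) ≠ 0 →
  ∃ u s : Pol k m, y = u * s ∧ Prime u ∧ u ∈ W a ∧ s ∈ W 0 ∧ constantCoeff u = 0 ∧
    constantCoeff s ≠ 0

/-! ### One parameter -/

/-- one-parameter data: grading by `ℤ` with tangent weights `r, -r, 0, …, 0` at the origin -/
structure One {k : Type} [Field k] {m : ℕ} (W : ℤ → Submodule k (Pol k m)) (r : ℤ)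
    (u v : Pol k m) : Prop extends PGr W where
  rpos : 0 < r
  pu : Prime u
  pv : Prime v
  hu : u ∈ W r
  hv : v ∈ W (-r)
  u0 : constantCoeff u = 0
  v0 : constantCoeff v = 0
  du : ∀ (j : ℕ), ∀ f ∈ W (r * j), ∃ g ∈ W 0, f = u ^ j * g
  dv : ∀ (j : ℕ), ∀ f ∈ W (-(r * j)), ∃ g ∈ W 0, f = v ^ j * g
  dz : ∀ e : ℤ, ¬ r ∣ e → ∀ f ∈ W e, f = 0

/-- existence of one-parameter data -/
def T_ONE : Prop := ∀ (k : Type) [Field k] (m : ℕ) (W : ℤ → Submodule k (Pol k m))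
  (y : Fin m ⊕ Fin m → Pol k m) (w : Fin m → ℤ) (i0 : Fin m) (u v su sv : Pol k m),
  PGr W → Ada W y w → 0 < w i0 → (∀ j, j ≠ i0 → w j = 0) →
  Prime u → Prime v → constantCoeff u = 0 → constantCoeff v = 0 → u ∈ W (w i0) →
  v ∈ W (-(w i0)) → y (Sum.inl i0) = u * su → y (Sum.inr i0) = v * sv →
  One W (w i0) u v

/-- closed 1-forms on affine space are exact -/
def T_POI : Prop := ∀ (k σ : Type) [Field k] [CharZero k] [Fintype σ] [DecidableEq σ]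
  (G : σ → MvPolynomial σ k), (∀ i j, pderiv i (G j) = pderiv j (G i)) →
  ∃ H : MvPolynomial σ k, ∀ i, pderiv i H = G i

/-- the Euler derivation of a grading is Hamiltonian -/
def T_EUL : Prop := ∀ (k : Type) [Field k] [CharZero k] (m : ℕ) (Γ : Type) [AddCommGroup Γ]
  (W : Γ → Submodule k (Pol k m)) (π : Γ →+ k), PGr W →
  ∃ H ∈ W 0, constantCoeff H = 0 ∧ ∀ a, ∀ f ∈ W a, br H f = (π a) • f

/-- the moment map of a one-parameter datum -/
structure Mom {k : Type} [Field k] {m : ℕ} (W : ℤ → Submodule k (Pol k m)) (r : ℤ)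
    (u v H : Pol k m) : Prop extends One W r u v where
  H0 : H ∈ W 0
  Hc : constantCoeff H = 0
  HE : ∀ (j : ℤ), ∀ f ∈ W (r * j), br H f = (j : k) • f

/-- the invariants commuting with `u` -/
def Ku {k : Type} [Field k] {m : ℕ} (W : ℤ → Submodule k (Pol k m)) (u : Pol k m) :
    Set (Pol k m) := {f | f ∈ W 0 ∧ br f u = 0}

/-- the invariants are polynomials in the moment map over `Ku` -/
def T_SLA : Prop := ∀ (k : Type) [Field k] [CharZero k] (m : ℕ)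
  (W : ℤ → Submodule k (Pol k m)) (r : ℤ) (u v H : Pol k m), Mom W r u v H →
  (∀ f ∈ W 0, ∃ P : Polynomial (Pol k m), (∀ i, P.coeff i ∈ Ku W u) ∧ P.eval H = f) ∧
  (∀ P : Polynomial (Pol k m), (∀ i, P.coeff i ∈ Ku W u) → P.eval H = 0 → P = 0)

/-- `u v = c H`, the main step -/
def T_CON : Prop := ∀ (k : Type) [Field k] [CharZero k] (m : ℕ)
  (W : ℤ → Submodule k (Pol k m)) (r : ℤ) (u v H : Pol k m), Mom W r u v H →
  (∀ f ∈ W 0, ∃ P : Polynomial (Pol k m), (∀ i, P.coeff i ∈ Ku W u) ∧ P.eval H = f) →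
  (∀ P : Polynomial (Pol k m), (∀ i, P.coeff i ∈ Ku W u) → P.eval H = 0 → P = 0) →
  ∃ c : k, c ≠ 0 ∧ u * v = C c * H ∧ br v u = C c ∧ ∀ f ∈ Ku W u, br f v = 0

/-- one-parameter theorem -/
def T_OPT : Prop := ∀ (k : Type) [Field k] [CharZero k] (m : ℕ)
  (W : ℤ → Submodule k (Pol k m)) (r : ℤ) (u v : Pol k m), One W r u v →
  ∃ c : k, c ≠ 0 ∧ br v u = C c ∧ (∀ f ∈ W 0, br f u = 0 → br f v = 0) ∧
    (∀ f ∈ W 0, br f v = 0 → br f u = 0) ∧
    ∀ f : Pol k m, f ∈ Algebra.adjoin k ({g | g ∈ W 0 ∧ br g u = 0 ∧ br g v = 0} ∪ {u, v})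

/-! ### Several parameters -/

/-- a symplectic pair of semi-invariants `u, v` of weights `a, -a` that splits off; `π` is the
one-parameter subgroup -/
structure Par {k Γ : Type} [Field k] [AddCommGroup Γ] {m : ℕ} (W : Γ → Submodule k (Pol k m))
    (a : Γ) (π : Γ →+ ℤ) (u v : Pol k m) (c : k) : Prop where
  pa : 0 < π a
  pu : Prime u
  pv : Prime v
  hu : u ∈ W a
  hv : v ∈ W (-a)
  hc : c ≠ 0
  vu : br v u = C c
  pos : ∀ (n : ℕ) (χ : Γ), (n : ℤ) * π a ≤ π χ → ∀ f ∈ W χ, u ^ n ∣ f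
  neg : ∀ (n : ℕ) (χ : Γ), (n : ℤ) * π a ≤ - π χ → ∀ f ∈ W χ, v ^ n ∣ f
  zer : ∀ χ : Γ, ¬ π a ∣ π χ → ∀ f ∈ W χ, f = 0
  cuv : ∀ χ : Γ, π χ = 0 → ∀ f ∈ W χ, (br f u = 0 ↔ br f v = 0)
  gen : ∀ f : Pol k m, f ∈ Algebra.adjoin k ((Cen {u, v} : Set (Pol k m)) ∪ {u, v})

/-- existence of splitting pairs -/
def T_PAR : Prop := ∀ (k : Type) [Field k] [CharZero k] (m : ℕ) (Γ : Type) [AddCommGroup Γ]
  [TwoUniqueSums Γ] (W : Γ → Submodule k (Pol k m)) (y : Fin m ⊕ Fin m → Pol k m)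
  (w : Fin m → Γ) (i : Fin m) (π : Γ →+ ℤ), PGr W → Ada W y w → 0 < π (w i) →
  (∀ j, j ≠ i → π (w j) = 0) → ∃ (u v : Pol k m) (c : k), Par W (w i) π u v c

/-- two splitting pairs commute -/
def T_COM : Prop := ∀ (k : Type) [Field k] (m : ℕ) (Γ : Type) [AddCommGroup Γ]
  (W : Γ → Submodule k (Pol k m)) (a a' : Γ) (π π' : Γ →+ ℤ) (u v u' v' : Pol k m) (c c' : k),
  PGr W → Par W a π u v c → Par W a' π' u' v' c' → π a' = 0 → π' a = 0 →
  br u u' = 0 ∧ br u v' = 0 ∧ br v u' = 0 ∧ br v v' = 0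

/-- splitting data: a pair for every index with nonzero weight -/
structure Spl {k Γ : Type} [Field k] [AddCommGroup Γ] {m : ℕ} (W : Γ → Submodule k (Pol k m))
    (w : Fin m → Γ) (π : Fin m → Γ →+ ℤ) (u v : Fin m → Pol k m) (c : Fin m → k) : Prop
    extends PGr W where
  par : ∀ i, w i ≠ 0 → Par W (w i) (π i) (u i) (v i) (c i)
  pz : ∀ i, w i ≠ 0 → ∀ j, j ≠ i → π i (w j) = 0
  uu : ∀ i j, w i ≠ 0 → w j ≠ 0 → br (u i) (u j) = 0
  vv : ∀ i j, w i ≠ 0 → w j ≠ 0 → br (v i) (v j) = 0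
  uv : ∀ i j, w i ≠ 0 → w j ≠ 0 → i ≠ j → br (u i) (v j) = 0
  wt : ∀ (χ : Γ) (f : Pol k m), f ∈ W χ → f ≠ 0 → ∃ e : Fin m → ℤ, χ = ∑ i, e i • w i

/-- existence of splitting data -/
def T_SPL : Prop := ∀ (k : Type) [Field k] [CharZero k] (m : ℕ) (Γ : Type) [AddCommGroup Γ]
  [TwoUniqueSums Γ] (W : Γ → Submodule k (Pol k m)) (y : Fin m ⊕ Fin m → Pol k m)
  (w : Fin m → Γ), PGr W → Ada W y w →
  (∀ i, w i ≠ 0 → ∃ π : Γ →+ ℤ, 0 < π (w i) ∧ ∀ j, j ≠ i → π (w j) = 0) →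
  ∃ (π : Fin m → Γ →+ ℤ) (u v : Fin m → Pol k m) (c : Fin m → k), Spl W w π u v c

/-- the set of the split coordinates -/
def act {k Γ : Type} [Field k] [AddCommGroup Γ] {m : ℕ} (w : Fin m → Γ)
    (u v : Fin m → Pol k m) : Set (Pol k m) := {p | ∃ i, w i ≠ 0 ∧ (p = u i ∨ p = v i)}

/-- a derivation that is nilpotent on generators is locally nilpotent -/
def T_NIL : Prop := ∀ (k R : Type) [Field k] [CommRing R] [Algebra k R] (D : Derivation k R R)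
  (S : Set R), (∀ s ∈ S, ∃ n : ℕ, D^[n] s = 0) → ∀ f ∈ Algebra.adjoin k S, ∃ n : ℕ, D^[n] f = 0

/-- the brackets with the split coordinates are locally nilpotent -/
def T_NPS : Prop := ∀ (k : Type) [Field k] (m : ℕ) (Γ : Type) [AddCommGroup Γ]
  (W : Γ → Submodule k (Pol k m)) (w : Fin m → Γ) (π : Fin m → Γ →+ ℤ)
  (u v : Fin m → Pol k m) (c : Fin m → k), Spl W w π u v c → ∀ i, w i ≠ 0 →
  ∀ f : Pol k m, (∃ n : ℕ, (br (u i))^[n] f = 0) ∧ (∃ n : ℕ, (br (v i))^[n] f = 0)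

/-- splitting: the algebra is generated by the centralizer and the split coordinates; bound for
the number of algebraically independent elements of the centralizer -/
def T_SPG : Prop := ∀ (k : Type) [Field k] [CharZero k] (m : ℕ) (Γ : Type) [AddCommGroup Γ]
  (W : Γ → Submodule k (Pol k m)) (w : Fin m → Γ) (π : Fin m → Γ →+ ℤ)
  (u v : Fin m → Pol k m) (c : Fin m → k), Spl W w π u v c →
  (∀ i, w i ≠ 0 → ∀ f : Pol k m,
    (∃ n : ℕ, (br (u i))^[n] f = 0) ∧ (∃ n : ℕ, (br (v i))^[n] f = 0)) →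
  (∀ f : Pol k m, f ∈ Algebra.adjoin k ((Cen (act w u v) : Set (Pol k m)) ∪ act w u v)) ∧
  (∀ (n : ℕ) (f : Fin n → Pol k m), (∀ l, f l ∈ Cen (act w u v)) → AlgebraicIndependent k f →
    n + 2 * Nat.card {i // w i ≠ 0} ≤ 2 * m)

/-- the centralizer is factorially closed and consists of invariants -/
def T_KFC : Prop := ∀ (k : Type) [Field k] [CharZero k] (m : ℕ) (Γ : Type) [AddCommGroup Γ]
  (W : Γ → Submodule k (Pol k m)) (w : Fin m → Γ) (π : Fin m → Γ →+ ℤ)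
  (u v : Fin m → Pol k m) (c : Fin m → k), Spl W w π u v c →
  (∀ i, w i ≠ 0 → ∀ f : Pol k m,
    (∃ n : ℕ, (br (u i))^[n] f = 0) ∧ (∃ n : ℕ, (br (v i))^[n] f = 0)) →
  (∀ a b : Pol k m, a * b ≠ 0 → a * b ∈ Cen (act w u v) →
    a ∈ Cen (act w u v) ∧ b ∈ Cen (act w u v)) ∧
  (∀ f ∈ Cen (act w u v), f ∈ W 0)

/-- the monomial with exponent vector `e` -/
noncomputable def mon {k : Type} [Field k] {m : ℕ} (u v : Fin m → Pol k m) (e : Fin m → ℤ) :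
    Pol k m := ∏ i, (u i ^ (e i).toNat * v i ^ (- e i).toNat)

/-- homogeneous elements are monomials times invariants -/
def T_DVM : Prop := ∀ (k : Type) [Field k] [CharZero k] (m : ℕ) (Γ : Type) [AddCommGroup Γ]
  (W : Γ → Submodule k (Pol k m)) (w : Fin m → Γ) (π : Fin m → Γ →+ ℤ)
  (u v : Fin m → Pol k m) (c : Fin m → k), Spl W w π u v c →
  ∀ (χ : Γ) (f : Pol k m), f ∈ W χ → f ≠ 0 → ∃ e : Fin m → ℤ, (∀ i, w i = 0 → e i = 0) ∧
    χ = ∑ i, e i • w i ∧ ∃ g ∈ W 0, f = mon u v e * g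

/-- homogeneous elements with locally nilpotent bracket -/
def T_HMF : Prop := ∀ (k : Type) [Field k] [CharZero k] (m : ℕ) (Γ : Type) [AddCommGroup Γ]
  (W : Γ → Submodule k (Pol k m)) (w : Fin m → Γ) (π : Fin m → Γ →+ ℤ)
  (u v : Fin m → Pol k m) (c : Fin m → k), Spl W w π u v c →
  (∀ i, w i ≠ 0 → ∀ f : Pol k m,
    (∃ n : ℕ, (br (u i))^[n] f = 0) ∧ (∃ n : ℕ, (br (v i))^[n] f = 0)) →
  ∀ (χ : Γ) (f : Pol k m), f ∈ W χ → f ≠ 0 → (∀ g, ∃ n : ℕ, (br f)^[n] g = 0) →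
  ∃ e : Fin m → ℤ, (∀ i, w i = 0 → e i = 0) ∧ χ = ∑ i, e i • w i ∧
    ∃ φ ∈ Cen (act w u v), f = mon u v e * φ ∧
      ∀ g ∈ Cen (act w u v), ∃ n : ℕ, (br φ)^[n] g = 0

/-- the top component of an element with locally nilpotent bracket -/
def T_TOP : Prop := ∀ (k : Type) [Field k] [CharZero k] (m : ℕ) (Γ : Type) [AddCommGroup Γ]
  [LinearOrder Γ] [IsOrderedAddMonoid Γ] (W : Γ → Submodule k (Pol k m)) (h : PGr W)
  (g : Pol k m) (a : Γ), (∀ f, ∃ n : ℕ, (br g)^[n] f = 0) → (∀ b, a < b → cmp h.toGr g b = 0) →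
  ∀ f, ∃ n : ℕ, (br (cmp h.toGr g a))^[n] f = 0

/-- the weights of polynomials of bounded degree are bounded -/
def T_BOX : Prop := ∀ (k : Type) [Field k] (m d : ℕ) (W : (Fin d → ℤ) → Submodule k (Pol k m))
  (h : PGr W), ∃ B : ℕ, ∀ (N : ℕ) (f : Pol k m), f.totalDegree ≤ N →
    ∀ χ, cmp h.toGr f χ ≠ 0 → ∀ l, |χ l| ≤ (B * N : ℕ)

/-- polynomial growth -/
def T_CNT : Prop := ∀ (d m B : ℕ), d < m → ∃ N : ℕ, (2 * (B * N) + 1) ^ d < Nat.choose (N + m) m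

/-- a nonconstant invariant with locally nilpotent bracket on the centralizer -/
def T_PHI : Prop := ∀ (k : Type) [Field k] [CharZero k] (m d : ℕ)
  (W : (Fin d → ℤ) → Submodule k (Pol k m)) (w : Fin m → Fin d → ℤ)
  (π : Fin m → (Fin d → ℤ) →+ ℤ) (u v : Fin m → Pol k m) (c : Fin m → k), Spl W w π u v c →
  (∀ i, w i ≠ 0 → ∀ f : Pol k m,
    (∃ n : ℕ, (br (u i))^[n] f = 0) ∧ (∃ n : ℕ, (br (v i))^[n] f = 0)) → d < m →
  ∃ φ ∈ Cen (act w u v), (¬ ∃ c : k, φ = C c) ∧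
    ∀ g ∈ Cen (act w u v), ∃ n : ℕ, (br φ)^[n] g = 0

/-! ### The two-dimensional centralizer -/

/-- a factorially closed Poisson subalgebra of transcendence degree at most two with a
locally nilpotent Hamiltonian -/
structure Pln {k : Type} [Field k] {m : ℕ} (K : Subalgebra k (Pol k m)) (φ : Pol k m) :
    Prop where
  fc : ∀ a b : Pol k m, a * b ≠ 0 → a * b ∈ K → a ∈ K ∧ b ∈ K
  bk : ∀ a ∈ K, ∀ b ∈ K, br a b ∈ K
  tr : ∀ f : Fin 3 → Pol k m, (∀ i, f i ∈ K) → ¬ AlgebraicIndependent k f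
  cn : ∀ p ∈ K, (∀ g ∈ K, p ∣ br p g) → ∃ c : k, p = C c
  ph : φ ∈ K
  nc : ¬ ∃ c : k, φ = C c
  nl : ∀ g ∈ K, ∃ n : ℕ, (br φ)^[n] g = 0

/-- two elements of the kernel are algebraically dependent -/
def T_PLA : Prop := ∀ (k : Type) [Field k] [CharZero k] (m : ℕ) (K : Subalgebra k (Pol k m))
  (φ : Pol k m), Pln K φ → ∀ f : Fin 2 → Pol k m, (∀ i, f i ∈ K ∧ br φ (f i) = 0) →
  ¬ AlgebraicIndependent k f

/-- the kernel is a polynomial ring in one variable -/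
def T_PLB : Prop := ∀ (k : Type) [Field k] [IsAlgClosed k] [CharZero k] (m : ℕ)
  (K : Subalgebra k (Pol k m)) (φ : Pol k m), Pln K φ →
  (∀ f : Fin 2 → Pol k m, (∀ i, f i ∈ K ∧ br φ (f i) = 0) → ¬ AlgebraicIndependent k f) →
  ∃ p ∈ K, br φ p = 0 ∧ (∀ c : k, Prime (p - C c)) ∧
    ∀ f ∈ K, br φ f = 0 → f ∈ Algebra.adjoin k {p}

/-- the bracket with the generator of the kernel -/
def T_PLD : Prop := ∀ (k : Type) [Field k] [IsAlgClosed k] [CharZero k] (m : ℕ)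
  (K : Subalgebra k (Pol k m)) (φ p : Pol k m), Pln K φ → p ∈ K → φ ∈ Algebra.adjoin k {p} →
  (∀ g ∈ K, ∃ n : ℕ, (br p)^[n] g = 0) ∧ (∀ g ∈ K, br p g = 0 → br φ g = 0)

/-- reduction modulo `p - c` -/
def T_PLF : Prop := ∀ (k : Type) [Field k] [IsAlgClosed k] [CharZero k] (m : ℕ)
  (K : Subalgebra k (Pol k m)) (φ p : Pol k m) (c : k), Pln K φ → p ∈ K →
  (∀ g ∈ K, ∃ n : ℕ, (br p)^[n] g = 0) → Prime (p - C c) →
  ∀ g ∈ K, (p - C c) ∣ br p g → ∃ b : k, (p - C c) ∣ (g - C b)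

/-- the centralizer is a polynomial ring in two variables -/
def T_PLN : Prop := ∀ (k : Type) [Field k] [IsAlgClosed k] [CharZero k] (m : ℕ)
  (K : Subalgebra k (Pol k m)) (φ : Pol k m), Pln K φ →
  ∃ p ∈ K, ∃ s ∈ K, br p s = 1 ∧ ∀ g ∈ K, g ∈ Algebra.adjoin k {p, s}

/-- existence of a slice -/
def T_PLE : Prop := ∀ (k : Type) [Field k] [IsAlgClosed k] [CharZero k] (m : ℕ)
  (K : Subalgebra k (Pol k m)) (φ p : Pol k m), Pln K φ → p ∈ K →
  (∀ g ∈ K, ∃ n : ℕ, (br p)^[n] g = 0) → (∀ g ∈ K, br p g = 0 → g ∈ Algebra.adjoin k {p}) →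
  (¬ ∃ c : k, p = C c) →
  (∀ c : k, ∀ g ∈ K, (p - C c) ∣ br p g → ∃ b : k, (p - C c) ∣ (g - C b)) →
  ∃ s ∈ K, br p s = 1

/-! ### Torus actions -/

/-- independence of characters with vector coefficients, and stability of components -/
def T_CHI : Prop := ∀ (k : Type) [Field k] [Infinite k] (d : ℕ) (V : Type) [AddCommGroup V]
  [Module k V] (U : Submodule k V) (c : (Fin d → ℤ) →₀ V),
  (∀ t : Fin d → kˣ, (c.sum fun χ x => ((chr χ t : kˣ) : k) • x) ∈ U) → ∀ χ, c χ ∈ U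

/-- an algebraic torus action gives a grading -/
def T_GRD : Prop := ∀ (k : Type) [Field k] [Infinite k] (σ : Type) [Finite σ] (d : ℕ)
  (ρ : (Fin d → kˣ) →* (MvPolynomial σ k ≃ₐ[k] MvPolynomial σ k)), AlgAct ρ → Gr (Wt ρ)

/-- an algebraic torus action has a fixed point -/
def T_FIX : Prop := ∀ (k : Type) [Field k] [IsAlgClosed k] [CharZero k] (σ : Type) [Fintype σ]
  (d : ℕ) (ρ : (Fin d → kˣ) →* (MvPolynomial σ k ≃ₐ[k] MvPolynomial σ k)), AlgAct ρ →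
  ∃ p : σ → k, ∀ t f, eval p (ρ t f) = eval p f

/-- translations -/
def T_TRA : Prop := ∀ (k : Type) [Field k] (m : ℕ) (p : Fin m ⊕ Fin m → k),
  ∃ τ : Pol k m ≃ₐ[k] Pol k m, Symp τ ∧ (∀ s, τ (X s) = X s + C (p s)) ∧
    (∀ f, constantCoeff (τ f) = eval p f)

/-- the Poisson grading of a symplectic action that fixes the origin -/
def T_PGR : Prop := ∀ (k : Type) [Field k] [Infinite k] (m d : ℕ)
  (ρ : (Fin d → kˣ) →* (Pol k m ≃ₐ[k] Pol k m)), Gr (Wt ρ) → (∀ t, Symp (ρ t)) →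
  (∀ t f, constantCoeff (ρ t f) = constantCoeff f) → PGr (Wt ρ)

/-- conjugation by a translation -/
def T_CJG : Prop := ∀ (k : Type) [Field k] [Infinite k] (m d : ℕ)
  (ρ : (Fin d → kˣ) →* (Pol k m ≃ₐ[k] Pol k m)) (p : Fin m ⊕ Fin m → k)
  (τ : Pol k m ≃ₐ[k] Pol k m), Gr (Wt ρ) → (∀ t, Symp (ρ t)) → Symp τ →
  (∀ f, constantCoeff (τ f) = eval p f) → (∀ t f, eval p (ρ t f) = eval p f) →
  ∃ ρ' : (Fin d → kˣ) →* (Pol k m ≃ₐ[k] Pol k m), (∀ t, ρ' t = τ * ρ t * τ⁻¹) ∧ PGr (Wt ρ') ∧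
    (∀ χ f, f ∈ Wt ρ' χ ↔ τ⁻¹ f ∈ Wt ρ χ)

/-- finite kernel: the weights span -/
def T_SPN : Prop := ∀ (k : Type) [Field k] [Infinite k] (m d : ℕ)
  (ρ : (Fin d → kˣ) →* (Pol k m ≃ₐ[k] Pol k m)) (y : Fin m ⊕ Fin m → Pol k m)
  (w : Fin m → Fin d → ℤ), PGr (Wt ρ) → Ada (Wt ρ) y w → {t | ρ t = 1}.Finite →
  ∀ l : Fin d → ℤ, l ≠ 0 → ∃ i, ∑ j, l j * w i j ≠ 0

/-- linear algebra: spanning vectors, at most as many as the dimension, have a dual basis -/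
def T_LIN : Prop := ∀ (m d : ℕ) (w : Fin m → Fin d → ℤ),
  (∀ l : Fin d → ℤ, l ≠ 0 → ∃ i, ∑ j, l j * w i j ≠ 0) → Nat.card {i // w i ≠ 0} ≤ d →
  Nat.card {i // w i ≠ 0} = d ∧
  ∀ i, w i ≠ 0 → ∃ π : (Fin d → ℤ) →+ ℤ, 0 < π (w i) ∧ ∀ j, j ≠ i → π (w j) = 0

/-- if all maximal ideals of points of a closed set are idempotent modulo its ideal then the set
is finite -/
def T_INF : Prop := ∀ (k σ : Type) [Field k] [Finite σ] (J : Ideal (MvPolynomial σ k)),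
  (∀ p : σ → k, J ≤ RingHom.ker (eval p : MvPolynomial σ k →+* k) →
    RingHom.ker (eval p : MvPolynomial σ k →+* k) ≤
      RingHom.ker (eval p : MvPolynomial σ k →+* k) ^ 2 ⊔ J) →
  {p : σ → k | J ≤ RingHom.ker (eval p : MvPolynomial σ k →+* k)}.Finite

/-- from symplectic coordinates of weights `w, -w` to a linearization -/
def T_FIN : Prop := ∀ (k : Type) [Field k] [CharZero k] (m d : ℕ)
  (ρ : (Fin d → kˣ) →* (Pol k m ≃ₐ[k] Pol k m)) (z : Fin m ⊕ Fin m → Pol k m)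
  (w : Fin m → Fin d → ℤ), (∀ i, z (Sum.inl i) ∈ Wt ρ (w i)) →
  (∀ i, z (Sum.inr i) ∈ Wt ρ (-w i)) →
  (∀ i j, br (z (Sum.inl i)) (z (Sum.inr j)) = if i = j then 1 else 0) →
  (∀ i j, br (z (Sum.inl i)) (z (Sum.inl j)) = 0) →
  (∀ i j, br (z (Sum.inr i)) (z (Sum.inr j)) = 0) →
  (∀ f : Pol k m, f ∈ Algebra.adjoin k (Set.range z)) →
  ∃ φ : Pol k m ≃ₐ[k] Pol k m, Symp φ ∧ ∀ (t : Fin d → kˣ) (i : Fin m),
    (φ * ρ t * φ⁻¹) (X (Sum.inl i)) = C ((chr (w i) t : kˣ) : k) * X (Sum.inl i) ∧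
    (φ * ρ t * φ⁻¹) (X (Sum.inr i)) = C (((chr (w i) t)⁻¹ : kˣ) : k) * X (Sum.inr i)

/-- final form of the splitting: symplectic coordinates when all weights are nonzero -/
def T_FNA : Prop := ∀ (k : Type) [Field k] [CharZero k] (m : ℕ) (Γ : Type) [AddCommGroup Γ]
  (W : Γ → Submodule k (Pol k m)) (w : Fin m → Γ) (π : Fin m → Γ →+ ℤ)
  (u v : Fin m → Pol k m) (c : Fin m → k), Spl W w π u v c → (∀ i, w i ≠ 0) →
  ∃ z : Fin m ⊕ Fin m → Pol k m, (∀ i, z (Sum.inl i) ∈ W (w i)) ∧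
    (∀ i, z (Sum.inr i) ∈ W (-w i)) ∧
    (∀ i j, br (z (Sum.inl i)) (z (Sum.inr j)) = if i = j then 1 else 0) ∧
    (∀ i j, br (z (Sum.inl i)) (z (Sum.inl j)) = 0) ∧
    (∀ i j, br (z (Sum.inr i)) (z (Sum.inr j)) = 0) ∧
    (∀ f : Pol k m, f ∈ Algebra.adjoin k (Set.range z))

/-- final form of the splitting: symplectic coordinates when exactly one weight is zero -/
def T_FNB : Prop := ∀ (k : Type) [Field k] [IsAlgClosed k] [CharZero k] (m d : ℕ)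
  (W : (Fin d → ℤ) → Submodule k (Pol k m)) (w : Fin m → Fin d → ℤ)
  (π : Fin m → (Fin d → ℤ) →+ ℤ) (u v : Fin m → Pol k m) (c : Fin m → k) (i0 : Fin m),
  Spl W w π u v c → d + 1 = m → w i0 = 0 → (∀ i, i ≠ i0 → w i ≠ 0) →
  ∃ z : Fin m ⊕ Fin m → Pol k m, (∀ i, z (Sum.inl i) ∈ W (w i)) ∧
    (∀ i, z (Sum.inr i) ∈ W (-w i)) ∧
    (∀ i j, br (z (Sum.inl i)) (z (Sum.inr j)) = if i = j then 1 else 0) ∧
    (∀ i j, br (z (Sum.inl i)) (z (Sum.inl j)) = 0) ∧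
    (∀ i j, br (z (Sum.inr i)) (z (Sum.inr j)) = 0) ∧
    (∀ f : Pol k m, f ∈ Algebra.adjoin k (Set.range z))

end Pool.Agent.H2.ST
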